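import Pool.Agent.Lib.MP_9f2731_nt.GP.Asm.Spec

/-!
MP_9f2731_nt, GP/Asm, module Sel: selection of b (Paley-Zygmund and Markov).
-/

namespace Pool.Agent.Lib.MP_9f2731_nt.GP.Asm

open Finset
open Pool.Agent.Lib.MP_9f2731_nt.GP.Rel

private theorem sel_eb {X : ℕ} (hX : 1 ≤ X) (g : ℕ → ℝ) : ∑ b ∈ Icc 1 X, g b = X * eb X g := by
  unfold eb
  have : (X : ℝ) ≠ 0 := by
    have : (1 : ℝ) ≤ X := by exact_mod_cast hX
    positivity
  field_simp

private theorem sel_first (X : ℕ) (F V : ℕ → ℝ) (δ : ℝ) (hX : 1 ≤ X) (hδ : 0 < δ)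
    (hF : ∀ b, 0 ≤ F b ∧ F b ≤ V b) (h2 : 2 * δ ≤ eb X F) (hV : eb X (fun b => V b ^ 2) ≤ 2) :
    δ ^ 2 / 2 * X ≤ ((Icc 1 X).filter (fun b => δ ≤ F b)).card := by
  have hX0 : (0 : ℝ) < X := by exact_mod_cast hX
  set A := (Icc 1 X).filter (fun b => δ ≤ F b) with hA
  have hsum : 2 * δ * X ≤ ∑ b ∈ Icc 1 X, F b := by
    rw [sel_eb hX F]
    nlinarith
  have hsplit := Finset.sum_filter_add_sum_filter_not (Icc 1 X) (fun b => δ ≤ F b) F
  have hsmall : ∑ b ∈ (Icc 1 X).filter (fun b => ¬ δ ≤ F b), F b ≤ δ * X := by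
    calc ∑ b ∈ (Icc 1 X).filter (fun b => ¬ δ ≤ F b), F b
        ≤ ∑ _b ∈ (Icc 1 X).filter (fun b => ¬ δ ≤ F b), δ :=
          Finset.sum_le_sum fun b hb => (not_le.1 (Finset.mem_filter.1 hb).2).le
      _ = ((Icc 1 X).filter (fun b => ¬ δ ≤ F b)).card * δ := by rw [Finset.sum_const, nsmul_eq_mul]
      _ ≤ X * δ := by
          refine mul_le_mul_of_nonneg_right ?_ hδ.le
          have h := Finset.card_filter_le (Icc 1 X) (fun b => ¬ δ ≤ F b)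
          rw [Nat.card_Icc, Nat.add_sub_cancel] at h
          exact_mod_cast h
      _ = δ * X := mul_comm _ _
  have hbig : δ * X ≤ ∑ b ∈ A, F b := by linarith
  have hcs := sq_sum_le_card_mul_sum_sq (s := A) (f := F)
  have hVs : ∑ b ∈ A, F b ^ 2 ≤ 2 * X := by
    calc ∑ b ∈ A, F b ^ 2 ≤ ∑ b ∈ Icc 1 X, F b ^ 2 :=
          Finset.sum_le_sum_of_subset_of_nonneg (Finset.filter_subset _ _) fun b _ _ => sq_nonneg _
      _ ≤ ∑ b ∈ Icc 1 X, V b ^ 2 :=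
          Finset.sum_le_sum fun b _ => pow_le_pow_left₀ (hF b).1 (hF b).2 2
      _ = X * eb X (fun b => V b ^ 2) := sel_eb hX _
      _ ≤ X * 2 := mul_le_mul_of_nonneg_left hV hX0.le
      _ = 2 * X := mul_comm _ _
  have h0 : (0 : ℝ) ≤ A.card := Nat.cast_nonneg _
  have h3 : (δ * X) ^ 2 ≤ A.card * (2 * X) :=
    calc (δ * X) ^ 2 ≤ (∑ b ∈ A, F b) ^ 2 := pow_le_pow_left₀ (by positivity) hbig 2
      _ ≤ A.card * ∑ b ∈ A, F b ^ 2 := hcs
      _ ≤ A.card * (2 * X) := mul_le_mul_of_nonneg_left hVs h0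
  have h4 : δ ^ 2 * X ≤ A.card * 2 := by
    have : δ ^ 2 * X * X ≤ A.card * 2 * X := by nlinarith
    exact le_of_mul_le_mul_right this hX0
  linarith

private theorem sel_second (X : ℕ) (g : ℕ → ℝ) (t : ℝ) (hX : 1 ≤ X) (ht : 0 < t) (hg : ∀ b, 0 ≤ g b) :
    (((Icc 1 X).filter (fun b => t < g b)).card : ℝ) ≤ X * eb X g / t := by
  rw [le_div_iff₀ ht, ← sel_eb hX g]
  calc (((Icc 1 X).filter (fun b => t < g b)).card : ℝ) * t
      = ∑ _b ∈ (Icc 1 X).filter (fun b => t < g b), t := by rw [Finset.sum_const, nsmul_eq_mul]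
    _ ≤ ∑ b ∈ (Icc 1 X).filter (fun b => t < g b), g b :=
        Finset.sum_le_sum fun b hb => (Finset.mem_filter.1 hb).2.le
    _ ≤ ∑ b ∈ Icc 1 X, g b :=
        Finset.sum_le_sum_of_subset_of_nonneg (Finset.filter_subset _ _) fun b _ _ => hg b

/-- Module Sel. -/
theorem pSel : SelStmt := ⟨sel_first, sel_second⟩

end Pool.Agent.Lib.MP_9f2731_nt.GP.Asm
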