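import Pool.Agent.Lib.MP_9f2731_nt.GP.Asm.Spec

/-!
MP_9f2731_nt, GP/Asm/Lf2: the linear forms condition in mean square (helper49).
-/

set_option autoImplicit false

namespace Pool.Agent.Lib.MP_9f2731_nt.GP.Asm

open Finset
open Pool.Agent.Lib.MP_9f2731_nt.GP.Rel

theorem lf2_av_prod {A B : Type} [Fintype A] [Fintype B] (g : A → B → ℝ) :
    av (fun y : A × B => g y.1 y.2) = av (fun a => av (fun b => g a b)) := by
  unfold av
  rw [Fintype.sum_prod_type, Fintype.card_prod, Nat.cast_mul, ← Finset.sum_div, div_div,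
    mul_comm (Fintype.card A : ℝ)]

theorem lf2_av_const {A : Type} [Fintype A] [Nonempty A] (c : ℝ) : av (fun _ : A => c) = c := by
  unfold av
  have h : (Fintype.card A : ℝ) ≠ 0 := Nat.cast_ne_zero.2 Fintype.card_ne_zero
  rw [Finset.sum_const, Finset.card_univ, nsmul_eq_mul]
  field_simp

theorem lf2_av_fst {A B : Type} [Fintype A] [Fintype B] [Nonempty B] (g : A → ℝ) :
    av (fun y : A × B => g y.1) = av g := by
  have h := lf2_av_prod (A := A) (B := B) (fun a _ => g a)
  rw [h]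
  simp only [lf2_av_const]

theorem lf2_av_snd {A B : Type} [Fintype A] [Fintype B] [Nonempty A] (g : B → ℝ) :
    av (fun y : A × B => g y.2) = av g := by
  have h := lf2_av_prod (A := A) (B := B) (fun _ b => g b)
  rw [h, lf2_av_const]

theorem lf2_av_mul {A : Type} [Fintype A] (c : ℝ) (g : A → ℝ) :
    av (fun x => c * g x) = c * av g := by
  unfold av
  rw [← Finset.mul_sum, mul_div_assoc]

theorem lf2_av_sq {A : Type} [Fintype A] (g : A → ℝ) :
    av (fun y : A × A => g y.1 * g y.2) = (av g) ^ 2 := by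
  have h := lf2_av_prod (A := A) (B := A) (fun a b => g a * g b)
  rw [h]
  simp only [lf2_av_mul]
  have h2 : (fun a => g a * av g) = fun a => av g * g a := by
    funext a
    ring
  rw [h2, lf2_av_mul]
  ring

theorem lf2_lfm {G : Type} [AddCommGroup G] [Fintype G] (k : ℕ)
    (S : Finset (Fin k × (Fin k → Bool))) (ν : G → ℝ) :
    lfm k S ν = av (fun x : Fin k × Bool → G => ∏ p ∈ S, ν (frm p.1 (pk p.2 x))) := by
  unfold lfm av
  congr 1
  rw [Fintype.card_fun, Fintype.card_prod, Fintype.card_fin, Fintype.card_bool, Nat.cast_pow,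
    mul_comm k 2]

theorem lf2_card {k : ℕ} (S : Finset (Fin k × (Fin k → Bool))) : S.card ≤ k * 2 ^ k := by
  refine (Finset.card_le_univ S).trans (le_of_eq ?_)
  rw [Fintype.card_prod, Fintype.card_fun, Fintype.card_fin, Fintype.card_bool]

theorem lf2_large {ε0 : ℝ} (h : 0 < ε0) (n : ℕ) : ∃ X1 : ℝ, ∀ X : ℕ, X1 ≤ X → ∀ N M : ℕ,
    Scl ε0 X N M → n ≤ N := by
  have h1 : Filter.Tendsto (fun x : ℝ => (Real.log x) ^ ε0) Filter.atTop Filter.atTop :=
    (tendsto_rpow_atTop h).comp Real.tendsto_log_atTop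
  obtain ⟨X1, hX1⟩ := Filter.eventually_atTop.1 (h1.eventually_ge_atTop (n : ℝ))
  refine ⟨X1, fun X hX N M hS => ?_⟩
  rw [hS.1]
  exact Nat.le_floor (hX1 X hX)

theorem lf2_inj {T M k : ℕ} [NeZero M] (hM : M.Prime) (hk : k ≤ M) (n : ℕ) (h1 : 1 ≤ n)
    (h2 : n < k) : Function.Injective (fun x : Fin (T + 1) → ZMod M => n • x) := by
  intro x y hxy
  funext t
  have h3 := congrFun hxy t
  simp only [Pi.smul_apply, nsmul_eq_mul] at h3
  have : Fact M.Prime := ⟨hM⟩
  have h4 : (n : ZMod M) ≠ 0 := by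
    rw [Ne, ZMod.natCast_eq_zero_iff]
    intro h5
    have := Nat.le_of_dvd h1 h5
    omega
  exact mul_left_cancel₀ h4 h3

theorem lf2_eb (X : ℕ) (hX : 1 ≤ X) (g : ℕ → ℝ) :
    eb X (fun b => (g b - 1) ^ 2) = (eb X (fun b => g b ^ 2) - 1) - 2 * (eb X g - 1) := by
  have hX' : (X : ℝ) ≠ 0 := by
    have : 0 < X := hX
    positivity
  unfold eb
  have h1 : ∑ b ∈ Icc 1 X, (g b - 1) ^ 2 =
      (∑ b ∈ Icc 1 X, g b ^ 2) - 2 * (∑ b ∈ Icc 1 X, g b) + X := by
    have h2 : ∀ b ∈ Icc 1 X, (g b - 1) ^ 2 = g b ^ 2 - 2 * g b + 1 := fun b _ => by ring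
    rw [Finset.sum_congr rfl h2, Finset.sum_add_distrib, Finset.sum_sub_distrib,
      ← Finset.mul_sum]
    simp
  rw [h1]
  field_simp
  ring

theorem pLf2 (h1 : AvgStmt) (h2 : EqdStmt) : Lf2Stmt := by
  intro k J l κ C C2 hk hJ hG T q hq ε0 hε0 hC2 θ hθ
  obtain ⟨w0, hw0⟩ := h1 J l κ C C2 hG T q hq ε0 hε0 hC2 (θ / 3) (by positivity)
  refine ⟨w0, fun w hw => ?_⟩
  obtain ⟨X0, hX0⟩ := hw0 w hw
  obtain ⟨X1, hX1⟩ := lf2_large hε0 k
  refine ⟨max (max X0 X1) 1, fun X hX N M _ hS S hSj => ?_⟩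
  have hXa : X0 ≤ X := ((le_max_left _ _).trans (le_max_left _ _)).trans hX
  have hXb : X1 ≤ X := ((le_max_right _ _).trans (le_max_left _ _)).trans hX
  have hXc : (1 : ℝ) ≤ X := (le_max_right _ _).trans hX
  have hXd : 1 ≤ X := by exact_mod_cast hXc
  have hkN := hX1 X hXb N M hS
  have hkM : k ≤ M := by
    have := hS.2.1
    omega
  have hinj := fun n a b => lf2_inj (T := T) hS.2.2.2 hkM n a b
  have hEq := h2 k (Fin (T + 1) → ZMod M) (by omega) hinj
  have hc := lf2_card S
  set ν : ℕ → (Fin (T + 1) → ZMod M) → ℝ := fun b x => nub l w κ q N X b x with hν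
  -- first mean
  have hA := hX0 X hXa N M hS (Fin k × Bool → (Fin (T + 1) → ZMod M))
    (Fin k × (Fin k → Bool)) S (fun p x => frm p.1 (pk p.2 x)) (by omega)
    (fun p hp p' hp' hne => (hEq p p' (hSj p hp) (hSj p' hp')).2 hne)
  -- second mean
  have hB := hX0 X hXa N M hS
    ((Fin k × Bool → (Fin (T + 1) → ZMod M)) × (Fin k × Bool → (Fin (T + 1) → ZMod M)))
    (Bool × (Fin k × (Fin k → Bool))) (univ ×ˢ S)
    (fun c y => if c.1 then frm c.2.1 (pk c.2.2 y.2) else frm c.2.1 (pk c.2.2 y.1))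
    (by
      rw [Finset.card_product, Finset.card_univ, Fintype.card_bool]
      omega)
    (by
      rintro ⟨c, p⟩ hp ⟨c', p'⟩ hp' hne F
      have hpS : p ∈ S := (Finset.mem_product.1 hp).2
      have hpS' : p' ∈ S := (Finset.mem_product.1 hp').2
      have a1 := hEq p p' (hSj p hpS) (hSj p' hpS')
      have a2 := hEq p' p (hSj p' hpS') (hSj p hpS)
      rcases c with _ | _ <;> rcases c' with _ | _
      · have hne' : p ≠ p' := fun h => hne (by rw [h])
        simp only [Bool.false_eq_true, if_false]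
        rw [lf2_av_fst (B := Fin k × Bool → (Fin (T + 1) → ZMod M))
          (fun x : Fin k × Bool → (Fin (T + 1) → ZMod M) =>
            F (frm p.1 (pk p.2 x), frm p'.1 (pk p'.2 x)))]
        exact a1.2 hne' F
      · simp only [Bool.false_eq_true, if_false, if_true]
        rw [lf2_av_prod (fun x y : Fin k × Bool → (Fin (T + 1) → ZMod M) =>
            F (frm p.1 (pk p.2 x), frm p'.1 (pk p'.2 y)))]
        have e1 : ∀ x : Fin k × Bool → (Fin (T + 1) → ZMod M),
            av (fun y : Fin k × Bool → (Fin (T + 1) → ZMod M) =>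
              F (frm p.1 (pk p.2 x), frm p'.1 (pk p'.2 y))) =
            av (fun g => F (frm p.1 (pk p.2 x), g)) := fun x =>
          a2.1 (fun g => F (frm p.1 (pk p.2 x), g))
        simp only [e1]
        rw [a1.1 (fun g => av (fun g' => F (g, g')))]
        exact (lf2_av_prod (fun g g' => F (g, g'))).symm
      · simp only [Bool.false_eq_true, if_false, if_true]
        rw [lf2_av_prod (fun x y : Fin k × Bool → (Fin (T + 1) → ZMod M) =>
            F (frm p.1 (pk p.2 y), frm p'.1 (pk p'.2 x)))]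
        have e1 : ∀ x : Fin k × Bool → (Fin (T + 1) → ZMod M),
            av (fun y : Fin k × Bool → (Fin (T + 1) → ZMod M) =>
              F (frm p.1 (pk p.2 y), frm p'.1 (pk p'.2 x))) =
            av (fun g => F (g, frm p'.1 (pk p'.2 x))) := fun x =>
          a1.1 (fun g => F (g, frm p'.1 (pk p'.2 x)))
        simp only [e1]
        rw [a2.1 (fun g' => av (fun g => F (g, g')))]
        rw [← lf2_av_prod (fun g' g => F (g, g'))]
        unfold av
        congr 1
        exact Fintype.sum_equiv (Equiv.prodComm _ _) _ _ fun y => rfl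
      · have hne' : p ≠ p' := fun h => hne (by rw [h])
        simp only [if_true]
        rw [lf2_av_snd (A := Fin k × Bool → (Fin (T + 1) → ZMod M))
          (fun x : Fin k × Bool → (Fin (T + 1) → ZMod M) =>
            F (frm p.1 (pk p.2 x), frm p'.1 (pk p'.2 x)))]
        exact a1.2 hne' F)
  have e2 : ∀ b, av (fun y : (Fin k × Bool → (Fin (T + 1) → ZMod M)) ×
      (Fin k × Bool → (Fin (T + 1) → ZMod M)) => ∏ c ∈ (univ : Finset Bool) ×ˢ S,
        nub l w κ q N X b (if c.1 then frm c.2.1 (pk c.2.2 y.2) else frm c.2.1 (pk c.2.2 y.1))) =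
      (lfm k S (ν b)) ^ 2 := by
    intro b
    rw [lf2_lfm, ← lf2_av_sq]
    congr 1
    funext y
    rw [Finset.prod_product, Fintype.prod_bool]
    simp only [if_true, Bool.false_eq_true, if_false]
    rw [mul_comm]
  have e3 : ∀ b, av (fun x : Fin k × Bool → (Fin (T + 1) → ZMod M) =>
      ∏ p ∈ S, nub l w κ q N X b (frm p.1 (pk p.2 x))) = lfm k S (ν b) := fun b =>
    (lf2_lfm k S (ν b)).symm
  simp only [e2] at hB
  simp only [e3] at hA
  rw [lf2_eb X hXd (fun b => lfm k S (ν b))]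
  have h5 := abs_le.1 hA
  have h6 := abs_le.1 hB
  linarith [h5.1, h5.2, h6.1, h6.2]

end Pool.Agent.Lib.MP_9f2731_nt.GP.Asm
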