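import Pool.Agent.Lib.MP_9f2731_nt.GP.Rel.Spec

/-!
MP_9f2731_nt, GP/Asm (helper78): assembly: RelStmt → CorStmt → MomStmt → RomPStmt → ApStmt → ResStmt. Rules: a module
`X.lean` in this directory starts with `import Pool.Agent.Lib.MP_9f2731_nt.GP.Asm.Spec`, `namespace
Pool.Agent.Lib.MP_9f2731_nt.GP.Asm`, `open Finset`, `open Pool.Agent.Lib.MP_9f2731_nt.GP.Rel` and proves the theorem `pX`. Statements under Uses are hypotheses, in
this order. All modules are independent.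
Notation of the proofs: L = log X, G = Fin (T+1) → ZMod M, B = the box Bx T M N, m = mlt q.
-/

namespace Pool.Agent.Lib.MP_9f2731_nt.GP.Asm

open Finset
open Pool.Agent.Lib.MP_9f2731_nt.GP.Rel

/-- mean over b in [1, X] -/
noncomputable def eb (X : ℕ) (g : ℕ → ℝ) : ℝ := (∑ b ∈ Icc 1 X, g b) / X

/-- the majorant on the lattice belonging to b -/
noncomputable def nub (l w : ℕ) (κ : ℝ) {T M : ℕ} (q : Fin T → ℕ) (N X b : ℕ)
    (x : Fin (T + 1) → ZMod M) : ℝ :=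
  if Bx T M N x then nu l w ((X : ℝ) ^ κ) (Wp w * b * mlt q x + 1) else 1

open Classical in
/-- the normalized indicator of the primes on the lattice -/
noncomputable def fb (l w : ℕ) (κ : ℝ) {T M : ℕ} (q : Fin T → ℕ) (N X b : ℕ)
    (x : Fin (T + 1) → ZMod M) : ℝ :=
  if Bx T M N x ∧ (X : ℝ) ^ κ < (b : ℝ) ∧ (Wp w * b * mlt q x + 1).Prime then
    ((Wp w).totient / (Wp w) : ℝ) * Real.log ((X : ℝ) ^ κ) * ((2 * (l : ℝ) - 1) / (l : ℝ) ^ 2)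
  else 0

/-- singular term of a pair of points -/
noncomputable def Xi (C : ℝ) (w : ℕ) {T M : ℕ} (q : Fin T → ℕ) (N : ℕ)
    (u v : Fin (T + 1) → ZMod M) : ℝ :=
  if Bx T M N u ∧ Bx T M N v ∧ u ≠ v then sing C w (Nat.dist (mlt q u) (mlt q v)) - 1 else 0

/-- distinct primes -/
def Pq {T : ℕ} (q : Fin T → ℕ) : Prop := 1 ≤ T ∧ (∀ j, (q j).Prime) ∧ Function.Injective q

/-- Module Mlt. Uses: nothing. Proof. The exponent of q j in mlt q x is (x j.succ).val + M * (x 0).val with (x _).val < M (ZMod.val_lt): by unique factorization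
(the q j are distinct primes; Nat.factorization_prod) it is determined by mlt q x, and division with remainder by M gives (x j.succ).val and (x 0).val (T ≥ 1), so x (ZMod.val_injective). Prime factors of
mlt q x are among the q j. The exponents are ≤ (M-1) + M (M-1) ≤ M^2, so log (mlt q x) ≤ ∑_j M^2 log Q. -/
def MltStmt : Prop :=
  ∀ (T : ℕ) (q : Fin T → ℕ), Pq q → ∀ (M : ℕ) [NeZero M],
    Function.Injective (fun x : Fin (T + 1) → ZMod M => mlt q x) ∧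
    (∀ w : ℕ, (∀ j, q j ≤ w) → ∀ x : Fin (T + 1) → ZMod M, Sm w (mlt q x)) ∧
    ∀ Q : ℕ, (∀ j, q j ≤ Q) → ∀ x : Fin (T + 1) → ZMod M,
      Real.log (mlt q x) ≤ T * (M : ℝ) ^ 2 * Real.log Q

/-- Module Sng. Uses: nothing. Proof. sing C w (a b) ≤ sing C w a * sing C w b (primeFactors_mul, factors ≥ 1), so sing C w (Del S) ≤ ∏ over the n ≤ J^2 pairs a.1 < a.2 of
sing C w (a.2 - a.1). AM-GM (inner_le_nnorm_mul_nnorm or Real.inner_le_..: Real.geom_mean_le_arith_mean_weighted, or induction): ∏_{i≤n} s_i ≤ (1/n) ∑ s_i^n for s_i ≥ 1, so ∏ s_i - 1 ≤ (1/n) ∑ (s_i^n - 1) ≤ ∑ (s_i^n - 1).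
(1 + C t)^n ≤ 1 + ((1+C)^(J^2) - 1) t for t = 1/p in [0,1], n ≤ J^2 (expand by the binomial theorem, t^i ≤ t), so sing C w m ^ n ≤ sing C' w m with C' = max C ((1+C)^(J^2) - 1). No pair: Del S = 1, sing = 1. -/
def SngStmt : Prop :=
  ∀ (J : ℕ) (C : ℝ), 0 < C → ∃ C' : ℝ, C ≤ C' ∧ ∀ (w : ℕ) (S : Finset ℕ), S.card ≤ J →
    sing C w (Del S) - 1 ≤ ∑ a ∈ (S ×ˢ S).filter (fun a => a.1 < a.2), (sing C' w (a.2 - a.1) - 1)

/-- Module Maj. Uses: nothing. Proof. nu ≥ 0: log (X^κ) ≥ 0, 2l - 1 ≥ 0. If fb ≠ 0, then n = Wp w * b * mlt q x + 1 is a prime > b > R = X^κ (Wp w ≥ 1, mlt ≥ 1), its divisors are 1 and n, and only d = 1 is ≤ R (R ≥ 1): Lam l R n =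
μ(1) (1 - 0)^l = 1, so nub = nu = the value of fb. -/
def MajStmt : Prop :=
  ∀ (T : ℕ) (q : Fin T → ℕ), Pq q → ∀ (l w N M X b : ℕ) (κ : ℝ) [NeZero M], 1 ≤ l → 0 < κ → 1 ≤ X →
    ∀ x : Fin (T + 1) → ZMod M,
      0 ≤ fb l w κ q N X b x ∧ fb l w κ q N X b x ≤ nub l w κ q N X b x

/-- general mean value of products of the majorant over a family of maps ψ i (no independence assumed) -/
def GenOK (J l : ℕ) (κ C C2 : ℝ) : Prop :=
  1 ≤ l ∧ 0 < κ ∧ κ < 1 ∧ 0 < C ∧ 0 < C2 ∧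
  ∀ (T : ℕ) (q : Fin T → ℕ), Pq q → ∀ θ : ℝ, 0 < θ → ∃ w0 : ℕ, ∀ w : ℕ, w0 ≤ w → ∃ X0 : ℝ,
    ∀ X : ℕ, X0 ≤ X → ∀ (N M : ℕ) [NeZero M] (Y : Type) [Fintype Y] [Nonempty Y] (ι : Type)
    [DecidableEq ι] (I : Finset ι) (ψ : ι → Y → (Fin (T + 1) → ZMod M)), I.card ≤ J →
    |eb X (fun b => av (fun y => ∏ i ∈ I, nub l w κ q N X b (ψ i y))) - 1| ≤
      θ + C * ∑ i ∈ I, ∑ i' ∈ I.erase i, av (fun y => Xi C w q N (ψ i y) (ψ i' y)) +
        (Real.log X) ^ C2 *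
          ∑ i ∈ I, ∑ i' ∈ I.erase i, av (fun y => if ψ i y = ψ i' y then (1 : ℝ) else 0)

/-- Module Gen. Uses: CorStmt, MomStmt, Mlt, Sng. Proof. l, κ, C1 from CorStmt for J (2 J κ ≤ 1 gives κ ≤ 1/2), C3 from MomStmt for J, C' from Sng for C1, C = max C1 C', C2 = C3 + 1. w0 ≥ all q j and the w0 of CorStmt for η = θ.
eb and av commute, so it is enough to prove for every y: |eb ∏_{i ∈ I} nub (ψ i y) - 1| ≤ θ + C ∑ ∑ Xi + L^C2 ∑ ∑ [ψ i y = ψ i' y]. Let I' = {i ∈ I : Bx (ψ i y)}: the product is ∏_{i ∈ I'} nu(Wp w * b * m_i + 1), m_i = mlt q (ψ i y).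
(a) If ψ · y is injective on I', then so is i ↦ m_i (Mlt), S = image, the product is ∏_{m ∈ S} nu(..), CorStmt: ≤ θ + C1 (sing C1 w (Del S) - 1) ≤ θ + C1 ∑_{a<b in S} (sing C' w (b-a) - 1) ≤ θ + C ∑_i ∑_{i'≠i} Xi (each pair a < b comes from a pair
(i,i'), Nat.dist is the difference; sing is monotone in C and ≥ 1, so Xi ≥ 0 for all pairs).
(b) Otherwise the last double sum is ≥ 1. AM-GM: ∏_{i∈I'} nu_i ≤ (1/n) ∑ nu_i^n, n = card I' ≤ J, nu^n ≤ 1 + nu^J, so eb ∏ ≤ 1 + L^C3 by MomStmt, and |eb ∏ - 1| ≤ 2 + L^C3 ≤ L^C2 for X large. -/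
def GenStmt : Prop := ∀ J : ℕ, 1 ≤ J → ∃ (l : ℕ) (κ C C2 : ℝ), GenOK J l κ C C2

/-- Module Eqd. Uses: nothing. Proof. frm j y = ∑ (i - j) • y i. (First) p = (j,σ): choose i ≠ j (k ≥ 2); with all variables but x (i, σ i) fixed, frm j (pk σ x) = (i - j) • x (i,σ i) + const is a bijection of G in this variable
(|i - j| < k, injective on the finite group G; also for negative integers). (Second) p = (j,σ) ≠ p' = (j',σ'). If j = j' then σ i ≠ σ' i for some i ≠ j (both are false at j); the variables a = x (i,σ i), b = x (i,σ' i) are different, the first form is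
(i-j) • a + const (it does not contain b) and the second (i-j) • b + const. If j ≠ j': the first form does not contain the variables of the vertex j and contains (j' - j) • a, a = x (j',σ j'); the second does not contain the variables of j' and
contains (j - j') • b, b = x (j, σ' j). In both cases, the other variables fixed, (a,b) ↦ (first, second) is a bijection of G × G. Average over the other variables (e.g. Rel.UpdStmt style: the mean over x is the mean over x, a, b of the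
function at update (update x _ a) _ b). -/
def EqdStmt : Prop :=
  ∀ (k : ℕ) (G : Type) [AddCommGroup G] [Fintype G], 2 ≤ k →
    (∀ n : ℕ, 1 ≤ n → n < k → Function.Injective (fun x : G => n • x)) →
    ∀ p p' : Fin k × (Fin k → Bool), p.2 p.1 = false → p'.2 p'.1 = false →
    (∀ F : G → ℝ, av (fun x : Fin k × Bool → G => F (frm p.1 (pk p.2 x))) = av F) ∧
    (p ≠ p' → ∀ F : G × G → ℝ,
      av (fun x : Fin k × Bool → G => F (frm p.1 (pk p.2 x), frm p'.1 (pk p'.2 x))) = av F)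

/-- the scales -/
def Scl (ε0 : ℝ) (X N M : ℕ) : Prop :=
  N = ⌊(Real.log X) ^ ε0⌋₊ ∧ 2 * N < M ∧ M ≤ 4 * N ∧ M.Prime

/-- Module Xav. Uses: RomPStmt. Proof. (All for w, N large from RomPStmt with this C and η and i = the index 0 of Fin T.) For u ∈ B and v ∈ B write v = update v' i.succ a with a = (v i.succ).val ∈ range N: for the sum over all v with prescribed
coordinates ≠ i.succ the bound is η N (the terms sing - 1 are ≥ 0, Xi ≤ the term of RomPStmt). There are N^T choices of the other coordinates in the box (N^(T-1) if the coordinate 0 is prescribed; 0 ≠ i.succ) and N^(T+1) of u; N < M. -/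
def XavStmt : Prop :=
  ∀ (T : ℕ) (q : Fin T → ℕ), Pq q → ∀ C η : ℝ, 0 < C → 0 < η →
    ∃ w0 : ℕ, ∀ w : ℕ, w0 ≤ w → ∃ N0 : ℕ, ∀ (N M : ℕ) [NeZero M], N0 ≤ N → N < M → M ≤ 4 * N →
    ((∑ u : Fin (T + 1) → ZMod M, ∑ v : Fin (T + 1) → ZMod M, Xi C w q N u v) ≤
      η * ((M : ℝ) ^ (T + 1)) ^ 2) ∧
    ((∑ u : Fin (T + 1) → ZMod M, ∑ v : Fin (T + 1) → ZMod M,
      if u 0 = v 0 then Xi C w q N u v else 0) ≤ η * ((M : ℝ) ^ (T + 1)) ^ 2 / M)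

/-- Module Avg (mean value 1 for pairwise independent families). Uses: Xav. Proof. GenOK with θ/3. By pairwise independence av Xi(ψ i, ψ i') = av over G × G of Xi ≤ η (Xav; card G = M^(T+1)); choose η = θ/(3 C J^2 + 1). The mean of [ψ i = ψ i'] is
1/card G, card G = M^(T+1) ≥ (2N)^(T+1) ≥ L^(ε0 (T+1)) ≥ L^(C2+2) (2N ≥ L^ε0 for L ≥ 1), so the last term is ≤ J^2 L^(-2) ≤ θ/3 for X large. N ≥ N0 for X large. -/
def AvgStmt : Prop :=
  ∀ (J l : ℕ) (κ C C2 : ℝ), GenOK J l κ C C2 → ∀ (T : ℕ) (q : Fin T → ℕ), Pq q → ∀ ε0 : ℝ, 0 < ε0 →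
    C2 + 2 ≤ ε0 * (T + 1) → ∀ θ : ℝ, 0 < θ → ∃ w0 : ℕ, ∀ w : ℕ, w0 ≤ w → ∃ X0 : ℝ, ∀ X : ℕ, X0 ≤ X →
    ∀ (N M : ℕ) [NeZero M], Scl ε0 X N M → ∀ (Y : Type) [Fintype Y] [Nonempty Y] (ι : Type)
    [DecidableEq ι] (I : Finset ι) (ψ : ι → Y → (Fin (T + 1) → ZMod M)), I.card ≤ J →
    (∀ i ∈ I, ∀ i' ∈ I, i ≠ i' →
      ∀ F : (Fin (T + 1) → ZMod M) × (Fin (T + 1) → ZMod M) → ℝ,
        av (fun y => F (ψ i y, ψ i' y)) = av F) →
    |eb X (fun b => av (fun y => ∏ i ∈ I, nub l w κ q N X b (ψ i y))) - 1| ≤ θ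

/-- the mean of the linear forms condition -/
noncomputable def lfm {G : Type} [AddCommGroup G] [Fintype G] (k : ℕ)
    (S : Finset (Fin k × (Fin k → Bool))) (ν : G → ℝ) : ℝ :=
  (∑ x : Fin k × Bool → G, ∏ p ∈ S, ν (frm p.1 (fun i => x (i, p.2 i)))) /
    (Fintype.card G : ℝ) ^ (2 * k)

/-- Module Lf2 (the linear forms condition in mean square). Uses: Avg, Eqd. Proof. Scl: M ≥ 2N > k for X large, so n • is injective on G for 1 ≤ n < k (M prime). card S ≤ k 2^k. (1) Avg with Y = Fin k × Bool → G, I = S, ψ p x = frm p.1 (pk p.2 x):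
eb lfm ∈ [1-θ', 1+θ'] (lfm is av, Fintype.card (Fin k × Bool → G) = card G^(2k)). (2) Y = pairs (x,x'), ι = Bool × (Fin k × (Fin k → Bool)), I = univ ×ˢ S (card ≤ 2 k 2^k ≤ J), ψ (false,p) = the form at x, ψ (true,p) = at x': pairwise independent by Eqd
(different copies: use the first part of Eqd twice and av over a product = iterated av), so eb (lfm^2) ∈ [1-θ',1+θ']. eb (lfm - 1)^2 ≤ 3θ' ≤ θ. -/
def Lf2Stmt : Prop :=
  ∀ (k J l : ℕ) (κ C C2 : ℝ), 3 ≤ k → 2 * (k * 2 ^ k) ≤ J → GenOK J l κ C C2 →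
    ∀ (T : ℕ) (q : Fin T → ℕ), Pq q → ∀ ε0 : ℝ, 0 < ε0 →
    C2 + 2 ≤ ε0 * (T + 1) → ∀ θ : ℝ, 0 < θ → ∃ w0 : ℕ, ∀ w : ℕ, w0 ≤ w → ∃ X0 : ℝ, ∀ X : ℕ, X0 ≤ X →
    ∀ (N M : ℕ) [NeZero M], Scl ε0 X N M →
    ∀ S : Finset (Fin k × (Fin k → Bool)), (∀ p ∈ S, p.2 p.1 = false) →
      eb X (fun b => (lfm k S (fun x : Fin (T + 1) → ZMod M => nub l w κ q N X b x) - 1) ^ 2) ≤ θ

/-- Module Sec. Uses: Avg. Proof. Avg with Y = G × G, ι = Bool, ψ false = fst, ψ true = snd (pairwise independent trivially), θ = 1: (av ν)^2 = av over G × G of ν(x) ν(x'). -/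
def SecStmt : Prop :=
  ∀ (J l : ℕ) (κ C C2 : ℝ), 2 ≤ J → GenOK J l κ C C2 →
    ∀ (T : ℕ) (q : Fin T → ℕ), Pq q → ∀ ε0 : ℝ, 0 < ε0 →
    C2 + 2 ≤ ε0 * (T + 1) → ∃ w0 : ℕ, ∀ w : ℕ, w0 ≤ w → ∃ X0 : ℝ, ∀ X : ℕ, X0 ≤ X →
    ∀ (N M : ℕ) [NeZero M], Scl ε0 X N M →
      eb X (fun b => (av (fun x : Fin (T + 1) → ZMod M => nub l w κ q N X b x)) ^ 2) ≤ 2

/-- Module Deg (degenerate differences). Uses: Xav. Proof. GenOK with θ' = 1, Y = {(x,d) : d 0 = 0} (card Y = M^(2(T+1))/M), I = univ : Fin k, ψ j (x,d) = x + j • d. M > k for X large. The left side is card Y * eb av ∏. For j ≠ j' the map (x,d) ↦ (x + j d, x + j' d) is a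
bijection of Y onto {(u,v) : u 0 = v 0} (j' - j is invertible mod M), so av Xi ≤ η by the second part of Xav, and the mean of [ψ j = ψ j'] is M^(T+1)/card Y = M^(-T). So the left side is ≤ card Y (2 + C k^2 η + L^C2 k^2 M^(-T)) ≤
card G^2 ((2 + C k^2 η)/M + L^C2 k^2/M^(T+1)), and M^(T+1) ≥ L^(C2+2), M → ∞. -/
def DegStmt : Prop :=
  ∀ (k J l : ℕ) (κ C C2 : ℝ), 2 ≤ k → k ≤ J → GenOK J l κ C C2 →
    ∀ (T : ℕ) (q : Fin T → ℕ), Pq q → ∀ ε0 : ℝ, 0 < ε0 →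
    C2 + 2 ≤ ε0 * (T + 1) → ∀ θ : ℝ, 0 < θ → ∃ w0 : ℕ, ∀ w : ℕ, w0 ≤ w → ∃ X0 : ℝ, ∀ X : ℕ, X0 ≤ X →
    ∀ (N M : ℕ) [NeZero M], Scl ε0 X N M →
      eb X (fun b => ∑ x : Fin (T + 1) → ZMod M, ∑ d : Fin (T + 1) → ZMod M,
        if d 0 = 0 then ∏ j : Fin k, nub l w κ q N X b (x + (j : ℕ) • d) else 0) ≤
      θ * ((M : ℝ) ^ (T + 1)) ^ 2

/-- Module Den (density). Uses: ApStmt, Mlt. Proof. ε1 = (ε1 of ApStmt)/4. Let V = (φ(W)/W) log(X^κ) (2l-1)/l^2 = (φ(W)/W) κ L (2l-1)/l^2, W = Wp w. For x ∈ B: Sm w (mlt q x) and log (mlt q x) ≤ T M^2 log Q ≤ 16 T log Q L^(2 ε0) ≤ L^(4 ε1) for X large (Q = max q;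
2 ε0 < 4 ε1), so by ApStmt at least (1/4)(W/φ(W)) X/L of the b ≤ X give primes, and at most X^κ ≤ (1/8)(W/φ(W)) X/L of them are ≤ X^κ. So eb (fb x) ≥ V (1/8)(W/φ(W))/L = κ (2l-1)/(8 l^2) for x ∈ B, and card B/card G = (N/M)^(T+1) ≥ 4^(-(T+1)). δ = κ (2l-1)/(16 l^2) 4^(-(T+1)). -/
def DenStmt : Prop :=
  ∃ ε1 : ℝ, 0 < ε1 ∧ ∀ (l : ℕ) (κ : ℝ), 1 ≤ l → 0 < κ → κ < 1 → ∀ ε0 : ℝ, 0 < ε0 → ε0 ≤ ε1 →
    ∀ (T : ℕ) (q : Fin T → ℕ), Pq q → ∃ δ : ℝ, 0 < δ ∧ ∀ w : ℕ, 2 ≤ w → (∀ j, q j ≤ w) →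
    ∃ X0 : ℝ, ∀ X : ℕ, X0 ≤ X → ∀ (N M : ℕ) [NeZero M], Scl ε0 X N M →
      2 * δ ≤ eb X (fun b => av (fun x : Fin (T + 1) → ZMod M => fb l w κ q N X b x))

/-- Module Sel. Uses: nothing. Proof. First (Paley-Zygmund): 2δ ≤ eb F ≤ δ + eb (F [F ≥ δ]) ≤ δ + (eb V^2)^(1/2) (n/X)^(1/2), n = the number of b with F b ≥ δ, so n/X ≥ δ^2/2. Second: Markov. -/
def SelStmt : Prop :=
  (∀ (X : ℕ) (F V : ℕ → ℝ) (δ : ℝ), 1 ≤ X → 0 < δ → (∀ b, 0 ≤ F b ∧ F b ≤ V b) →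
    2 * δ ≤ eb X F → eb X (fun b => V b ^ 2) ≤ 2 →
    δ ^ 2 / 2 * X ≤ ((Icc 1 X).filter (fun b => δ ≤ F b)).card) ∧
  ∀ (X : ℕ) (g : ℕ → ℝ) (t : ℝ), 1 ≤ X → 0 < t → (∀ b, 0 ≤ g b) →
    (((Icc 1 X).filter (fun b => t < g b)).card : ℝ) ≤ X * eb X g / t

/-- Module Pts (from the lattice to numbers). Uses: nothing. Proof. D t = (x + d) t .val - (x t).val (integer), |D t| < N. For j < k all coordinates of x + j • d have val < N; consecutive differences of the vals are ≡ d t mod M and of absolute value < N, 2N < M, so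
they are all D t: (x + j • d) t .val = (x t).val + j D t. D 0 ≠ 0 because d 0 ≠ 0. If D 0 > 0: E_i = D i.succ + M D 0 > 0 (M > N > |D|), s = mlt q x, r = ∏ q_i^(E_i) ≥ 2 (T ≥ 1), mlt q (x + j d) = s r^j. If D 0 < 0: s = mlt q (x + (k-1) d),
r = ∏ q_i^(-E_i), mlt q (x + j d) = s r^(k-1-j). Exponents: vals < N < M give exponents of s ≤ M^2; |E_i| ≤ (N-1) + M (N-1) ≤ M^2. Gen: prime factors are among the q i. -/
def PtsStmt : Prop :=
  ∀ (T : ℕ) (q : Fin T → ℕ), Pq q → ∀ (N M k : ℕ) [NeZero M], 2 * N < M → 2 ≤ k →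
    ∀ x d : Fin (T + 1) → ZMod M, d 0 ≠ 0 → (∀ j : ℕ, j < k → Bx T M N (x + j • d)) →
    ∃ s r : ℕ, Gen q s ∧ Gen q r ∧ 2 ≤ r ∧
      (∀ Q : ℕ, (∀ j, q j ≤ Q) → Real.log s ≤ T * (M : ℝ) ^ 2 * Real.log Q ∧
        Real.log r ≤ T * (M : ℝ) ^ 2 * Real.log Q) ∧
      ∀ i : ℕ, i < k → ∃ j : ℕ, j < k ∧ mlt q (x + j • d) = s * r ^ i

/-- Module Bas (main step). Uses: RelStmt, Gen, Lf2, Sec, Deg, Den, Maj, Sel, Pts. Proof. J = 2 k 2^k, (l,κ,C,C2) from Gen, ε1 from Den, ε0 = min (ε/4) (min ε1 (1/8)), T = ⌈(C2+2)/ε0⌉₊. Given q: δ from Den for (l,κ,ε0,T,q); (c,η,n0) from RelStmt for (k,δ);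
nS = 2^(k 2^k) (number of sets S), θ = min 1 (min (η^2 δ^2/(8 nS)) (c δ^2/16)). w ≥ 2, all q j, and the w0 of Lf2 (θ), Sec, Deg (θ). X large: N = ⌊L^ε0⌋ ≥ 1 and by Bertrand (Nat.exists_prime_lt_and_le_two_mul) a prime M with 2N < M ≤ 4N; Scl holds; M > n0, so n • is
injective on G for 1 ≤ n ≤ n0. By Sel (F = av fb, V = av nub by Maj) at least (δ^2/2) X of the b ≤ X have av (fb b) ≥ δ; by Markov at most nS θ X/η^2 ≤ δ^2 X/8 have (lfm S (nub b) - 1)^2 > η^2 for some S, and at most 2 θ X/c ≤ δ^2 X/8 have degenerate sum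
> (c/2) card G^2 (card G = M^(T+1)). So at least (δ^2/4) X of the b have av fb ≥ δ, LFC k η (nub b) and degenerate sum ≤ (c/2) card G^2. For such b RelStmt gives c card G^2 ≤ ∑_x ∑_d ∏_j fb(x + j d); the part d 0 = 0 is ≤ the degenerate sum (0 ≤ fb ≤ nub), so
some (x,d) with d 0 ≠ 0 has all fb(x + j d) ≠ 0: all x + j d ∈ B and Wp w * b * mlt q (x + j d) + 1 prime. Pts: s, r; log s, log r ≤ T (4 L^ε0)^2 log Q ≤ L^ε for X large (2 ε0 < ε). W = Wp w. -/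
def BasStmt : Prop :=
  ∀ (k : ℕ) (ε : ℝ), 3 ≤ k → 0 < ε → ∃ T : ℕ, ∀ q : Fin T → ℕ, (∀ j, (q j).Prime) →
    Function.Injective q → ∃ (c : ℝ) (W : ℕ), 0 < c ∧ 1 ≤ W ∧ ∃ X0 : ℝ, ∀ X : ℕ, X0 ≤ X →
    c * X ≤ (({b : ℕ | 1 ≤ b ∧ b ≤ X ∧ ∃ s r : ℕ, Gen q s ∧ Gen q r ∧ 2 ≤ r ∧
      (s : ℝ) ≤ Real.exp ((Real.log X) ^ ε) ∧ (r : ℝ) ≤ Real.exp ((Real.log X) ^ ε) ∧
      ∀ i : ℕ, i < k → (W * b * s * r ^ i + 1).Prime}).ncard : ℝ)

/-- Module Res. Uses: Bas. Proof. Bas for max k 3. Given X' large put X = X'/W (natural division) ≥ X'/(2W); b ↦ W b is injective from the set of Bas for X to good k ε q X' (log X ≤ log X', exp and powers are monotone). c' = c/(2W). Finiteness: good ⊆ Icc 1 X'. -/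
def RsStmt : Prop := ResStmt

end Pool.Agent.Lib.MP_9f2731_nt.GP.Asm
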