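import Pool.Agent.Lib.MP_9f2731_nt.GP.Asm.Spec

/-!
MP_9f2731_nt, GP/Asm, module Eqd: equidistribution of the linear forms (surjective homomorphisms
of finite abelian groups have fibres of the same size).
-/

namespace Pool.Agent.Lib.MP_9f2731_nt.GP.Asm

open Finset
open Pool.Agent.Lib.MP_9f2731_nt.GP.Rel

namespace EqdAux

/-- the mean of a function of a surjective homomorphism -/
theorem av_comp {A B : Type} [AddCommGroup A] [AddCommGroup B] [Fintype A] [Fintype B]
    (φ : A →+ B) (hφ : Function.Surjective φ) (F : B → ℝ) :
    av (fun x => F (φ x)) = av F := by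
  classical
  have hc : ∀ b : B, (univ.filter (fun x => φ x = b)).card
      = (univ.filter (fun x => φ x = 0)).card := by
    intro b
    have hb : b ∈ Set.range φ := hφ b
    have h0 : (0 : B) ∈ Set.range φ := hφ 0
    exact AddMonoidHom.card_fiber_eq_of_mem_range φ hb h0
  have hsum : ∀ H : B → ℝ, ∑ x, H (φ x) = (univ.filter (fun x => φ x = 0)).card * ∑ b, H b := by
    intro H
    rw [← Finset.sum_fiberwise_of_maps_to (s := univ) (t := (univ : Finset B)) (g := φ)
      (fun x _ => Finset.mem_univ _)]
    rw [Finset.mul_sum]
    refine Finset.sum_congr rfl fun b _ => ?_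
    have : ∑ x ∈ univ.filter (fun x => φ x = b), H (φ x)
        = ∑ x ∈ univ.filter (fun x => φ x = b), H b := by
      refine Finset.sum_congr rfl fun x hx => ?_
      rw [(Finset.mem_filter.1 hx).2]
    rw [this, Finset.sum_const, hc b, nsmul_eq_mul]
  have hcard : (Fintype.card A : ℝ)
      = (univ.filter (fun x => φ x = 0)).card * (Fintype.card B : ℝ) := by
    have := hsum (fun _ => 1)
    simpa using this
  have hpos : (0 : ℝ) < (univ.filter (fun x => φ x = 0)).card := by
    have : 0 < (univ.filter (fun x => φ x = 0)).card :=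
      Finset.card_pos.2 ⟨0, by simp⟩
    exact_mod_cast this
  unfold av
  rw [hsum F, hcard, mul_div_mul_left _ _ hpos.ne']

theorem smul_surj {k : ℕ} {G : Type} [AddCommGroup G] [Fintype G]
    (h : ∀ n : ℕ, 1 ≤ n → n < k → Function.Injective (fun x : G => n • x)) (z : ℤ) (hz : z ≠ 0)
    (hk : z.natAbs < k) (g : G) : ∃ a : G, z • a = g := by
  have h1 : Function.Surjective (fun x : G => z.natAbs • x) :=
    Finite.injective_iff_surjective.1 (h z.natAbs (by omega) hk)
  obtain ⟨a, ha⟩ := h1 g
  have ha' : ((z.natAbs : ℕ) : ℤ) • a = g := by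
    rw [natCast_zsmul]; exact ha
  rcases Int.natAbs_eq z with he | he
  · exact ⟨a, by rw [he]; exact ha'⟩
  · refine ⟨-a, ?_⟩
    rw [he, neg_smul, smul_neg, neg_neg]
    exact ha'

/-- the form as a homomorphism -/
def frmH {G : Type} [AddCommGroup G] {k : ℕ} (j : Fin k) (σ : Fin k → Bool) :
    (Fin k × Bool → G) →+ G where
  toFun x := frm j (pk σ x)
  map_zero' := by simp [frm, pk]
  map_add' x y := by simp [frm, pk, smul_add, Finset.sum_add_distrib]

/-- value of a form when all but one of its terms vanish -/
theorem frm_single {G : Type} [AddCommGroup G] {k : ℕ} (j : Fin k) (y : Fin k → G) (i : Fin k)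
    (h : ∀ l, l ≠ i → l ≠ j → y l = 0) :
    frm j y = (((i : ℕ) : ℤ) - ((j : ℕ) : ℤ)) • y i := by
  unfold frm
  refine Finset.sum_eq_single i ?_ ?_
  · intro l _ hl
    by_cases hj : l = j
    · rw [hj, sub_self, zero_smul]
    · rw [h l hl hj, smul_zero]
  · intro hi
    exact absurd (Finset.mem_univ i) hi

theorem diff_ne {k : ℕ} {i j : Fin k} (h : i ≠ j) : (((i : ℕ) : ℤ) - ((j : ℕ) : ℤ)) ≠ 0 ∧
    (((i : ℕ) : ℤ) - ((j : ℕ) : ℤ)).natAbs < k := by
  have h1 : (i : ℕ) ≠ (j : ℕ) := fun e => h (Fin.ext e)
  have h2 := i.isLt
  have h3 := j.isLt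
  constructor
  · omega
  · omega

end EqdAux

open EqdAux in
theorem pEqd : EqdStmt := by
  intro k G _ _ hk hinj p p' hp hp'
  classical
  obtain ⟨j, σ⟩ := p
  obtain ⟨j', σ'⟩ := p'
  simp only at hp hp'
  constructor
  · intro F
    have hs : Function.Surjective (frmH (G := G) j σ) := by
      intro g
      obtain ⟨i, hi⟩ : ∃ i : Fin k, i ≠ j := by
        have : Nontrivial (Fin k) := Fin.nontrivial_iff_two_le.2 hk
        exact exists_ne j
      obtain ⟨a, ha⟩ := smul_surj hinj _ (diff_ne hi).1 (diff_ne hi).2 g
      refine ⟨fun q => if q = (i, σ i) then a else 0, ?_⟩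
      show frm j (pk σ fun q => if q = (i, σ i) then a else 0) = g
      rw [frm_single j _ i]
      · simpa [pk] using ha
      · intro l hl _
        simp [pk, hl]
    exact av_comp (frmH j σ) hs F
  · intro hne F
    have hs : Function.Surjective ((frmH (G := G) j σ).prod (frmH j' σ')) := by
      rintro ⟨g, h⟩
      by_cases hj : j = j'
      · subst hj
        have hσ : ∃ i, σ i ≠ σ' i := by
          by_contra hcon
          push Not at hcon
          exact hne (by rw [funext hcon])
        obtain ⟨i, hi⟩ := hσ
        have hij : i ≠ j := by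
          rintro rfl
          exact hi (hp.trans hp'.symm)
        obtain ⟨a, ha⟩ := smul_surj hinj _ (diff_ne hij).1 (diff_ne hij).2 g
        obtain ⟨b, hb⟩ := smul_surj hinj _ (diff_ne hij).1 (diff_ne hij).2 h
        refine ⟨fun q => if q = (i, σ i) then a else if q = (i, σ' i) then b else 0, ?_⟩
        refine Prod.ext ?_ ?_
        · show frm j (pk σ fun q => if q = (i, σ i) then a else if q = (i, σ' i) then b else 0) = g
          rw [frm_single j _ i]
          · simpa [pk] using ha
          · intro l hl _
            simp [pk, hl]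
        · show frm j (pk σ' fun q => if q = (i, σ i) then a else if q = (i, σ' i) then b else 0)
            = h
          rw [frm_single j _ i]
          · have h1 : (i, σ' i) ≠ (i, σ i) := by
              intro e
              exact hi (by simpa using e.symm)
            simpa [pk, h1, Ne.symm hi] using hb
          · intro l hl _
            simp [pk, hl]
      · have hj' : j' ≠ j := fun e => hj e.symm
        obtain ⟨a, ha⟩ := smul_surj hinj _ (diff_ne hj').1 (diff_ne hj').2 g
        obtain ⟨b, hb⟩ := smul_surj hinj _ (diff_ne hj).1 (diff_ne hj).2 h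
        refine ⟨fun q => if q = (j', σ j') then a else if q = (j, σ' j) then b else 0, ?_⟩
        refine Prod.ext ?_ ?_
        · show frm j (pk σ fun q => if q = (j', σ j') then a else if q = (j, σ' j) then b else 0)
            = g
          rw [frm_single j _ j']
          · simpa [pk] using ha
          · intro l hl hl'
            simp [pk, hl, hl']
        · show frm j' (pk σ' fun q => if q = (j', σ j') then a else if q = (j, σ' j) then b
            else 0) = h
          rw [frm_single j' _ j]
          · simpa [pk, hj] using hb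
          · intro l hl hl'
            simp [pk, hl, hl']
    exact av_comp ((frmH j σ).prod (frmH j' σ')) hs F

end Pool.Agent.Lib.MP_9f2731_nt.GP.Asm
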