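import Pool.Agent.Lib.MP_9f2731_nt.GP.Asm.Spec

/-!
MP_9f2731_nt, GP/Asm, module Gen: mean values of products of the majorant.
-/

namespace Pool.Agent.Lib.MP_9f2731_nt.GP.Asm

open Finset
open Pool.Agent.Lib.MP_9f2731_nt.GP.Rel

namespace GenAux

theorem sing_ge {C : ℝ} (hC : 0 ≤ C) (w n : ℕ) : 1 ≤ sing C w n := by
  unfold sing
  have h : ∀ p ∈ n.primeFactors.filter (fun p => w < p), (1 : ℝ) ≤ 1 + C / (p : ℝ) := by
    intro p _
    have : 0 ≤ C / (p : ℝ) := div_nonneg hC (Nat.cast_nonneg p)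
    linarith
  calc (1 : ℝ) = ∏ p ∈ n.primeFactors.filter (fun p => w < p), (1 : ℝ) := by simp
    _ ≤ _ := Finset.prod_le_prod (fun _ _ => zero_le_one) h

theorem xi_nonneg {C : ℝ} (hC : 0 ≤ C) (w : ℕ) {T M : ℕ} (q : Fin T → ℕ) (N : ℕ)
    (u v : Fin (T + 1) → ZMod M) : 0 ≤ Xi C w q N u v := by
  unfold Xi
  split_ifs
  · have := sing_ge hC w (Nat.dist (mlt q u) (mlt q v))
    linarith
  · exact le_rfl

theorem dbl_eq {ι : Type} [DecidableEq ι] (I : Finset ι) (F : ι → ι → ℝ) :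
    ∑ i ∈ I, ∑ i' ∈ I.erase i, F i i'
      = ∑ p ∈ (I ×ˢ I).filter (fun p => p.2 ≠ p.1), F p.1 p.2 := by
  rw [Finset.sum_filter, Finset.sum_product]
  refine Finset.sum_congr rfl fun i _ => ?_
  rw [← Finset.filter_ne', Finset.sum_filter]

theorem dbl_nonneg {ι : Type} [DecidableEq ι] (I : Finset ι) (F : ι → ι → ℝ)
    (hF : ∀ i i', 0 ≤ F i i') : 0 ≤ ∑ i ∈ I, ∑ i' ∈ I.erase i, F i i' :=
  Finset.sum_nonneg fun i _ => Finset.sum_nonneg fun i' _ => hF i i'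

theorem prod_le {ι : Type} (s : Finset ι) (a : ι → ℝ) (J : ℕ)
    (ha : ∀ i ∈ s, 0 ≤ a i) (hs : s.card ≤ J) : ∏ i ∈ s, a i ≤ 1 + ∑ i ∈ s, a i ^ J := by
  rcases s.eq_empty_or_nonempty with rfl | hne
  · simp
  obtain ⟨i0, hi0, hmax⟩ := Finset.exists_max_image s a hne
  have h1 : ∏ i ∈ s, a i ≤ a i0 ^ s.card := by
    calc ∏ i ∈ s, a i ≤ ∏ i ∈ s, a i0 := Finset.prod_le_prod ha hmax
      _ = _ := by simp
  have hsum : a i0 ^ J ≤ ∑ i ∈ s, a i ^ J :=
    Finset.single_le_sum (f := fun i => a i ^ J) (fun i hi => pow_nonneg (ha i hi) J) hi0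
  rcases le_total (a i0) 1 with h | h
  · have h2 : a i0 ^ s.card ≤ 1 := pow_le_one₀ (ha i0 hi0) h
    have h3 : 0 ≤ a i0 ^ J := pow_nonneg (ha i0 hi0) J
    linarith
  · have := pow_le_pow_right₀ h hs
    linarith

theorem nu_nonneg {l w : ℕ} {κ : ℝ} {X : ℕ} (hl : 1 ≤ l) (hκ : 0 < κ) (hX : 1 ≤ X) (n : ℕ) :
    0 ≤ nu l w ((X : ℝ) ^ κ) n := by
  unfold nu
  have hX' : (1 : ℝ) ≤ X := by exact_mod_cast hX
  have h1 : 0 ≤ Real.log ((X : ℝ) ^ κ) :=
    Real.log_nonneg (Real.one_le_rpow hX' hκ.le)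
  have hl' : (1 : ℝ) ≤ l := by exact_mod_cast hl
  have h2 : 0 ≤ (2 * (l : ℝ) - 1) / (l : ℝ) ^ 2 := div_nonneg (by linarith) (by positivity)
  have h3 : 0 ≤ ((Wp w).totient / (Wp w) : ℝ) := by positivity
  have h4 : 0 ≤ (Lam l ((X : ℝ) ^ κ) n) ^ 2 := sq_nonneg _
  exact mul_nonneg (mul_nonneg (mul_nonneg h3 h1) h2) h4

theorem pointwise {J l w : ℕ} {κ C1 C' C3 θ : ℝ} {T : ℕ} {q : Fin T → ℕ} {X N M : ℕ} [NeZero M]
    (hl : 1 ≤ l) (hκ : 0 < κ) (hC1 : 0 < C1) (hC' : C1 ≤ C')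
    (hθ : 0 < θ) (hX : 1 ≤ X) (hL : (J : ℝ) + 2 ≤ Real.log X) (hC3 : 0 < C3)
    (hcor : ∀ S : Finset ℕ, S.card ≤ J → (∀ m ∈ S, Sm w m) →
      |(∑ b ∈ Icc 1 X, ∏ m ∈ S, nu l w ((X : ℝ) ^ κ) (Wp w * b * m + 1)) / X - 1|
        ≤ θ + C1 * (sing C1 w (Del S) - 1))
    (hmom : ∀ m : ℕ, Sm w m →
      (∑ b ∈ Icc 1 X, (nu l w ((X : ℝ) ^ κ) (Wp w * b * m + 1)) ^ J) / X ≤ (Real.log X) ^ C3)
    (hinj : Function.Injective (fun x : Fin (T + 1) → ZMod M => mlt q x))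
    (hsm : ∀ x : Fin (T + 1) → ZMod M, Sm w (mlt q x))
    (hsng : ∀ S : Finset ℕ, S.card ≤ J → sing C1 w (Del S) - 1
      ≤ ∑ a ∈ (S ×ˢ S).filter (fun a => a.1 < a.2), (sing C' w (a.2 - a.1) - 1))
    {ι : Type} [DecidableEq ι] (I : Finset ι) (hI : I.card ≤ J)
    (x : ι → (Fin (T + 1) → ZMod M)) :
    |eb X (fun b => ∏ i ∈ I, nub l w κ q N X b (x i)) - 1|
      ≤ θ + C' * ∑ i ∈ I, ∑ i' ∈ I.erase i, Xi C' w q N (x i) (x i')
        + (Real.log X) ^ (C3 + 1)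
          * ∑ i ∈ I, ∑ i' ∈ I.erase i, (if x i = x i' then (1 : ℝ) else 0) := by
  classical
  have hC'0 : 0 < C' := lt_of_lt_of_le hC1 hC'
  have hX0 : (0 : ℝ) < X := by exact_mod_cast hX
  have hL1 : (1 : ℝ) ≤ Real.log X := by
    have : (0 : ℝ) ≤ J := Nat.cast_nonneg J
    linarith
  have hL0 : (0 : ℝ) < Real.log X := by linarith
  set I' := I.filter (fun i => Bx T M N (x i)) with hI'
  have hI'c : I'.card ≤ J := (Finset.card_filter_le _ _).trans hI
  have hprod : ∀ b, ∏ i ∈ I, nub l w κ q N X b (x i)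
      = ∏ i ∈ I', nu l w ((X : ℝ) ^ κ) (Wp w * b * mlt q (x i) + 1) := by
    intro b
    rw [hI', Finset.prod_filter]
    rfl
  simp only [hprod]
  have hXi : ∀ i i', 0 ≤ Xi C' w q N (x i) (x i') := fun i i' => xi_nonneg hC'0.le w q N _ _
  have hEq : ∀ i i', (0 : ℝ) ≤ (if x i = x i' then (1 : ℝ) else 0) := by
    intro i i'
    split_ifs <;> norm_num
  have hA := dbl_nonneg I (fun i i' => Xi C' w q N (x i) (x i')) hXi
  have hB := dbl_nonneg I (fun i i' => (if x i = x i' then (1 : ℝ) else 0)) hEq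
  have hP : 0 ≤ (Real.log X) ^ (C3 + 1) := by positivity
  by_cases hj : Set.InjOn x I'
  · -- injective case
    have hmj : Set.InjOn (fun i => mlt q (x i)) I' := fun i hi i' hi' h => hj hi hi' (hinj h)
    set S := I'.image (fun i => mlt q (x i)) with hS
    have hSc : S.card ≤ J := Finset.card_image_le.trans hI'c
    have hSm : ∀ m ∈ S, Sm w m := by
      intro m hm
      rw [hS, Finset.mem_image] at hm
      obtain ⟨i, _, rfl⟩ := hm
      exact hsm (x i)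
    have h1 := hcor S hSc hSm
    have h2 := hsng S hSc
    have hpe : ∀ b, ∏ m ∈ S, nu l w ((X : ℝ) ^ κ) (Wp w * b * m + 1)
        = ∏ i ∈ I', nu l w ((X : ℝ) ^ κ) (Wp w * b * mlt q (x i) + 1) := by
      intro b
      rw [hS, Finset.prod_image hmj]
    simp only [hpe] at h1
    have h3 : ∑ a ∈ (S ×ˢ S).filter (fun a => a.1 < a.2), (sing C' w (a.2 - a.1) - 1)
        ≤ ∑ i ∈ I, ∑ i' ∈ I.erase i, Xi C' w q N (x i) (x i') := by
      set Q := (I' ×ˢ I').filter (fun p => mlt q (x p.1) < mlt q (x p.2)) with hQ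
      have hPQ : (S ×ˢ S).filter (fun a => a.1 < a.2)
          = Q.image (fun p => (mlt q (x p.1), mlt q (x p.2))) := by
        ext ⟨m, n⟩
        simp only [hQ, hS, Finset.mem_filter, Finset.mem_product, Finset.mem_image, Prod.exists,
          Prod.mk.injEq]
        constructor
        · rintro ⟨⟨⟨i, hi, rfl⟩, ⟨i', hi', rfl⟩⟩, hlt⟩
          exact ⟨i, i', ⟨⟨hi, hi'⟩, hlt⟩, rfl, rfl⟩
        · rintro ⟨i, i', ⟨⟨hi, hi'⟩, hlt⟩, rfl, rfl⟩
          exact ⟨⟨⟨i, hi, rfl⟩, ⟨i', hi', rfl⟩⟩, hlt⟩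
      have hQj : Set.InjOn (fun p : ι × ι => (mlt q (x p.1), mlt q (x p.2))) Q := by
        rintro ⟨i, i'⟩ hp ⟨k, k'⟩ hk h
        simp only [hQ, Finset.coe_filter, Finset.mem_product, Set.mem_ofPred_eq] at hp hk
        simp only [Prod.mk.injEq] at h
        have e1 : i = k := hmj hp.1.1 hk.1.1 h.1
        have e2 : i' = k' := hmj hp.1.2 hk.1.2 h.2
        rw [e1, e2]
      rw [hPQ, Finset.sum_image hQj, dbl_eq]
      calc ∑ p ∈ Q, (sing C' w (mlt q (x p.2) - mlt q (x p.1)) - 1)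
          = ∑ p ∈ Q, Xi C' w q N (x p.1) (x p.2) := by
            refine Finset.sum_congr rfl ?_
            rintro ⟨i, i'⟩ hp
            simp only [hQ, hI', Finset.mem_filter, Finset.mem_product] at hp
            obtain ⟨⟨⟨_, hb⟩, ⟨_, hb'⟩⟩, hlt⟩ := hp
            have hne : x i ≠ x i' := by
              intro h
              rw [h] at hlt
              exact lt_irrefl _ hlt
            unfold Xi
            rw [if_pos ⟨hb, hb', hne⟩, Nat.dist_eq_sub_of_le hlt.le]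
        _ ≤ _ := by
            refine Finset.sum_le_sum_of_subset_of_nonneg ?_ fun p _ _ => hXi p.1 p.2
            rintro ⟨i, i'⟩ hp
            simp only [hQ, hI', Finset.mem_filter, Finset.mem_product] at hp
            obtain ⟨⟨⟨hi, _⟩, ⟨hi', _⟩⟩, hlt⟩ := hp
            simp only [Finset.mem_filter, Finset.mem_product]
            refine ⟨⟨hi, hi'⟩, ?_⟩
            rintro rfl
            exact lt_irrefl _ hlt
    have h4 : C1 * (sing C1 w (Del S) - 1)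
        ≤ C' * ∑ i ∈ I, ∑ i' ∈ I.erase i, Xi C' w q N (x i) (x i') :=
      calc C1 * (sing C1 w (Del S) - 1)
          ≤ C1 * ∑ i ∈ I, ∑ i' ∈ I.erase i, Xi C' w q N (x i) (x i') :=
            mul_le_mul_of_nonneg_left (h2.trans h3) hC1.le
        _ ≤ _ := mul_le_mul_of_nonneg_right hC' hA
    have h5 := mul_nonneg hP hB
    unfold eb
    linarith
  · -- a coincidence
    have hco : ∃ i ∈ I', ∃ i' ∈ I', i ≠ i' ∧ x i = x i' := by
      by_contra hcon
      push Not at hcon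
      refine hj fun i hi i' hi' h => ?_
      by_contra hne
      exact hcon i hi i' hi' hne h
    obtain ⟨i, hi, i', hi', hne, hxx⟩ := hco
    have hone : (1 : ℝ) ≤ ∑ i ∈ I, ∑ i' ∈ I.erase i, (if x i = x i' then (1 : ℝ) else 0) := by
      rw [dbl_eq]
      have hmem : (i, i') ∈ (I ×ˢ I).filter (fun p => p.2 ≠ p.1) := by
        simp only [Finset.mem_filter, Finset.mem_product]
        exact ⟨⟨(Finset.mem_filter.1 hi).1, (Finset.mem_filter.1 hi').1⟩, fun h => hne h.symm⟩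
      have h := Finset.single_le_sum (f := fun p : ι × ι => (if x p.1 = x p.2 then (1 : ℝ) else 0))
        (fun p _ => hEq p.1 p.2) hmem
      simp only [hxx, if_true] at h
      exact h
    have hnn : ∀ b i, 0 ≤ nu l w ((X : ℝ) ^ κ) (Wp w * b * mlt q (x i) + 1) :=
      fun b i => nu_nonneg hl hκ hX _
    have h1 : eb X (fun b => ∏ i ∈ I', nu l w ((X : ℝ) ^ κ) (Wp w * b * mlt q (x i) + 1))
        ≤ 1 + J * (Real.log X) ^ C3 := by
      unfold eb
      have h2 : ∑ b ∈ Icc 1 X, ∏ i ∈ I', nu l w ((X : ℝ) ^ κ) (Wp w * b * mlt q (x i) + 1)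
          ≤ ∑ b ∈ Icc 1 X, (1 + ∑ i ∈ I', nu l w ((X : ℝ) ^ κ) (Wp w * b * mlt q (x i) + 1) ^ J) :=
        Finset.sum_le_sum fun b _ => prod_le I' _ J (fun i _ => hnn b i) hI'c
      have h3 : ∑ b ∈ Icc 1 X, (1 + ∑ i ∈ I',
          nu l w ((X : ℝ) ^ κ) (Wp w * b * mlt q (x i) + 1) ^ J)
          = X + ∑ i ∈ I', ∑ b ∈ Icc 1 X, nu l w ((X : ℝ) ^ κ) (Wp w * b * mlt q (x i) + 1) ^ J := by
        rw [Finset.sum_add_distrib, Finset.sum_comm]
        simp
      rw [h3] at h2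
      calc (∑ b ∈ Icc 1 X, ∏ i ∈ I', nu l w ((X : ℝ) ^ κ) (Wp w * b * mlt q (x i) + 1)) / X
          ≤ (X + ∑ i ∈ I', ∑ b ∈ Icc 1 X,
              nu l w ((X : ℝ) ^ κ) (Wp w * b * mlt q (x i) + 1) ^ J) / X :=
            div_le_div_of_nonneg_right h2 hX0.le
        _ = 1 + ∑ i ∈ I', (∑ b ∈ Icc 1 X,
              nu l w ((X : ℝ) ^ κ) (Wp w * b * mlt q (x i) + 1) ^ J) / X := by
            rw [add_div, div_self hX0.ne', Finset.sum_div]
        _ ≤ 1 + ∑ i ∈ I', (Real.log X) ^ C3 := by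
            gcongr with i _
            exact hmom _ (hsm (x i))
        _ = 1 + I'.card * (Real.log X) ^ C3 := by simp
        _ ≤ 1 + J * (Real.log X) ^ C3 := by
            gcongr
    have h0 : 0 ≤ eb X (fun b => ∏ i ∈ I', nu l w ((X : ℝ) ^ κ) (Wp w * b * mlt q (x i) + 1)) := by
      unfold eb
      exact div_nonneg (Finset.sum_nonneg fun b _ => Finset.prod_nonneg fun i _ => hnn b i) hX0.le
    have hpow : (1 : ℝ) ≤ (Real.log X) ^ C3 := Real.one_le_rpow hL1 hC3.le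
    have h4 : 2 + J * (Real.log X) ^ C3 ≤ (Real.log X) ^ (C3 + 1) := by
      rw [Real.rpow_add hL0, Real.rpow_one]
      calc 2 + J * (Real.log X) ^ C3 ≤ ((J : ℝ) + 2) * (Real.log X) ^ C3 := by nlinarith
        _ ≤ Real.log X * (Real.log X) ^ C3 := mul_le_mul_of_nonneg_right hL (by positivity)
        _ = _ := by ring
    have h5 : |eb X (fun b => ∏ i ∈ I', nu l w ((X : ℝ) ^ κ) (Wp w * b * mlt q (x i) + 1)) - 1|
        ≤ 2 + J * (Real.log X) ^ C3 := by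
      rw [abs_le]
      constructor <;> nlinarith
    have h6 : (Real.log X) ^ (C3 + 1) ≤ (Real.log X) ^ (C3 + 1)
        * ∑ i ∈ I, ∑ i' ∈ I.erase i, (if x i = x i' then (1 : ℝ) else 0) := by
      nlinarith
    have h7 := mul_nonneg hC'0.le hA
    linarith

theorem av_mono {Y : Type} [Fintype Y] {f g : Y → ℝ} (h : ∀ y, f y ≤ g y) : av f ≤ av g := by
  unfold av
  exact div_le_div_of_nonneg_right (Finset.sum_le_sum fun y _ => h y) (Nat.cast_nonneg _)

theorem av_add {Y : Type} [Fintype Y] (f g : Y → ℝ) : av (fun y => f y + g y) = av f + av g := by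
  unfold av
  rw [Finset.sum_add_distrib, add_div]

theorem av_mul {Y : Type} [Fintype Y] (c : ℝ) (g : Y → ℝ) :
    av (fun y => c * g y) = c * av g := by
  unfold av
  rw [← Finset.mul_sum, mul_div_assoc]

theorem av_const {Y : Type} [Fintype Y] [Nonempty Y] (c : ℝ) : av (fun _ : Y => c) = c := by
  unfold av
  have : (0 : ℝ) < Fintype.card Y := by exact_mod_cast Fintype.card_pos
  simp

theorem av_sum {Y ι : Type} [Fintype Y] (s : Finset ι) (f : ι → Y → ℝ) :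
    av (fun y => ∑ i ∈ s, f i y) = ∑ i ∈ s, av (f i) := by
  unfold av
  rw [Finset.sum_comm, Finset.sum_div]

theorem eb_av {Y : Type} [Fintype Y] (X : ℕ) (F : ℕ → Y → ℝ) :
    eb X (fun b => av (F b)) = av (fun y => eb X (fun b => F b y)) := by
  unfold eb av
  rw [← Finset.sum_div, ← Finset.sum_div, Finset.sum_comm, div_right_comm]

end GenAux

open GenAux in
theorem pGen (hCor : CorStmt) (hMom : MomStmt) (hMlt : MltStmt) (hSng : SngStmt) : GenStmt := by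
  intro J hJ
  obtain ⟨l, κ, C1, hl, hκ, hJκ, hC1, hcor⟩ := hCor J
  obtain ⟨C3, hC3, hmom⟩ := hMom J
  obtain ⟨C', hC', hsng⟩ := hSng J C1 hC1
  have hJ' : (1 : ℝ) ≤ J := by exact_mod_cast hJ
  refine ⟨l, κ, C', C3 + 1, hl, hκ, ?_, lt_of_lt_of_le hC1 hC', by linarith, ?_⟩
  · nlinarith
  intro T q hq θ hθ
  obtain ⟨w0, hw0⟩ := hcor θ hθ
  refine ⟨max w0 (∑ j, q j), ?_⟩
  intro w hw
  obtain ⟨X1, hX1⟩ := hw0 w ((le_max_left _ _).trans hw)
  obtain ⟨X2, hX2⟩ := hmom l w κ hl hκ hJκ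
  have hqw : ∀ j, q j ≤ w := fun j =>
    ((Finset.single_le_sum (f := fun j => q j) (fun _ _ => Nat.zero_le _)
      (Finset.mem_univ j)).trans (le_max_right _ _)).trans hw
  refine ⟨max (max X1 X2) (Real.exp ((J : ℝ) + 2)), ?_⟩
  intro X hX N M _ Y _ _ ι _ I ψ hI
  have hXa : X1 ≤ X := ((le_max_left _ _).trans (le_max_left _ _)).trans hX
  have hXb : X2 ≤ X := ((le_max_right _ _).trans (le_max_left _ _)).trans hX
  have hXc : Real.exp ((J : ℝ) + 2) ≤ X := (le_max_right _ _).trans hX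
  have hXp : (0 : ℝ) < X := lt_of_lt_of_le (Real.exp_pos _) hXc
  have hL : (J : ℝ) + 2 ≤ Real.log X := (Real.le_log_iff_exp_le hXp).2 hXc
  have hX1' : 1 ≤ X := by exact_mod_cast hXp
  obtain ⟨hinj, hsm, _⟩ := hMlt T q hq M
  have hpt := fun y => pointwise (N := N) hl hκ hC1 hC' hθ hX1' hL hC3 (hX1 X hXa) (hX2 X hXb)
    hinj (hsm w hqw) (hsng w) I hI (fun i => ψ i y)
  have h1 : eb X (fun b => av (fun y => ∏ i ∈ I, nub l w κ q N X b (ψ i y)))
      = av (fun y => eb X (fun b => ∏ i ∈ I, nub l w κ q N X b (ψ i y))) :=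
    eb_av X (fun b y => ∏ i ∈ I, nub l w κ q N X b (ψ i y))
  rw [h1]
  have h2 : av (fun y => θ + C' * ∑ i ∈ I, ∑ i' ∈ I.erase i, Xi C' w q N (ψ i y) (ψ i' y)
        + (Real.log X) ^ (C3 + 1)
          * ∑ i ∈ I, ∑ i' ∈ I.erase i, (if ψ i y = ψ i' y then (1 : ℝ) else 0))
      = θ + C' * ∑ i ∈ I, ∑ i' ∈ I.erase i, av (fun y => Xi C' w q N (ψ i y) (ψ i' y)) +
        (Real.log X) ^ (C3 + 1) *
          ∑ i ∈ I, ∑ i' ∈ I.erase i, av (fun y => if ψ i y = ψ i' y then (1 : ℝ) else 0) := by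
    rw [av_add, av_add, av_const, av_mul, av_mul, av_sum, av_sum]
    simp only [av_sum]
  rw [← h2, abs_le]
  constructor
  · have h3 : av (fun y => -(θ + C' * ∑ i ∈ I, ∑ i' ∈ I.erase i, Xi C' w q N (ψ i y) (ψ i' y)
        + (Real.log X) ^ (C3 + 1)
          * ∑ i ∈ I, ∑ i' ∈ I.erase i, (if ψ i y = ψ i' y then (1 : ℝ) else 0)) + 1)
        ≤ av (fun y => eb X (fun b => ∏ i ∈ I, nub l w κ q N X b (ψ i y))) := by
      refine av_mono fun y => ?_
      have := (abs_le.1 (hpt y)).1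
      linarith
    have h4 : ∀ g : Y → ℝ, av (fun y => -(g y) + 1) = -av g + 1 := by
      intro g
      rw [av_add, av_const]
      have : av (fun y => -g y) = -av g := by
        have := av_mul (-1) g
        simpa using this
      rw [this]
    rw [h4] at h3
    linarith
  · have h3 : av (fun y => eb X (fun b => ∏ i ∈ I, nub l w κ q N X b (ψ i y)))
        ≤ av (fun y => (θ + C' * ∑ i ∈ I, ∑ i' ∈ I.erase i, Xi C' w q N (ψ i y) (ψ i' y)
        + (Real.log X) ^ (C3 + 1)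
          * ∑ i ∈ I, ∑ i' ∈ I.erase i, (if ψ i y = ψ i' y then (1 : ℝ) else 0)) + 1) := by
      refine av_mono fun y => ?_
      have := (abs_le.1 (hpt y)).2
      linarith
    rw [av_add _ (fun _ => (1 : ℝ)), av_const] at h3
    linarith

end Pool.Agent.Lib.MP_9f2731_nt.GP.Asm
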