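import Pool.Agent.Lib.MP_9f2731_nt.GP.Asm.Spec

/-!
MP_9f2731_nt, GP/Asm/Maj: the majorant.
-/

namespace Pool.Agent.Lib.MP_9f2731_nt.GP.Asm

open Finset
open Pool.Agent.Lib.MP_9f2731_nt.GP.Rel

private theorem Maj_const_nonneg (l w : ℕ) (R : ℝ) (hl : 1 ≤ l) (hR : 1 ≤ R) :
    0 ≤ ((Wp w).totient / (Wp w) : ℝ) * Real.log R * ((2 * (l : ℝ) - 1) / (l : ℝ) ^ 2) := by
  have h1 : (1 : ℝ) ≤ (l : ℝ) := by exact_mod_cast hl
  have h2 : 0 ≤ Real.log R := Real.log_nonneg hR
  have h3 : 0 ≤ 2 * (l : ℝ) - 1 := by linarith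
  positivity

private theorem Maj_nu_nonneg (l w : ℕ) (R : ℝ) (n : ℕ) (hl : 1 ≤ l) (hR : 1 ≤ R) :
    0 ≤ nu l w R n := by
  unfold nu
  exact mul_nonneg (Maj_const_nonneg l w R hl hR) (sq_nonneg _)

private theorem Maj_Lam (l : ℕ) (R : ℝ) (n : ℕ) (hR : 1 ≤ R) (hn : n.Prime) (hRn : R < n) :
    Lam l R n = 1 := by
  unfold Lam
  have h : n.divisors.filter (fun d : ℕ => (d : ℝ) ≤ R) = {1} := by
    ext d
    rw [Finset.mem_filter, Nat.mem_divisors, Finset.mem_singleton]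
    constructor
    · rintro ⟨⟨h1, -⟩, h2⟩
      rcases (Nat.dvd_prime hn).1 h1 with h3 | h3
      · exact h3
      · subst h3
        exact absurd h2 (not_le.2 hRn)
    · rintro rfl
      refine ⟨⟨one_dvd n, hn.ne_zero⟩, ?_⟩
      rw [Nat.cast_one]
      exact hR
  rw [h, Finset.sum_singleton]
  simp

theorem pMaj : MajStmt := by
  intro T q hq l w N M X b κ _ hl hκ hX x
  have hX1 : (1 : ℝ) ≤ (X : ℝ) := by exact_mod_cast hX
  have hR : (1 : ℝ) ≤ (X : ℝ) ^ κ := Real.one_le_rpow hX1 hκ.le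
  have hc := Maj_const_nonneg l w ((X : ℝ) ^ κ) hl hR
  have hfb : 0 ≤ fb l w κ q N X b x := by
    unfold fb
    split_ifs
    · exact hc
    · exact le_rfl
  refine ⟨hfb, ?_⟩
  by_cases hB : Bx T M N x
  · have hnub : nub l w κ q N X b x
        = nu l w ((X : ℝ) ^ κ) (Wp w * b * mlt q x + 1) := by
      unfold nub
      rw [if_pos hB]
    rw [hnub]
    by_cases h : Bx T M N x ∧ (X : ℝ) ^ κ < (b : ℝ) ∧ (Wp w * b * mlt q x + 1).Prime
    · have hf : fb l w κ q N X b x = ((Wp w).totient / (Wp w) : ℝ) * Real.log ((X : ℝ) ^ κ)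
          * ((2 * (l : ℝ) - 1) / (l : ℝ) ^ 2) := by
        unfold fb
        rw [if_pos h]
      have hW : 1 ≤ Wp w := primorial_pos w
      have hm : 1 ≤ mlt q x := by
        unfold mlt
        refine Finset.one_le_prod' ?_
        intro j _
        exact Nat.one_le_pow _ _ (hq.2.1 j).pos
      have hbn : b ≤ Wp w * b * mlt q x := by
        calc b = 1 * b * 1 := by ring
          _ ≤ Wp w * b * mlt q x := Nat.mul_le_mul (Nat.mul_le_mul hW le_rfl) hm
      have hlt : (X : ℝ) ^ κ < ((Wp w * b * mlt q x + 1 : ℕ) : ℝ) := by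
        refine lt_of_lt_of_le h.2.1 ?_
        exact_mod_cast Nat.le_succ_of_le hbn
      have hL := Maj_Lam l ((X : ℝ) ^ κ) (Wp w * b * mlt q x + 1) hR h.2.2 hlt
      rw [hf]
      unfold nu
      rw [hL, one_pow, mul_one]
    · have hf : fb l w κ q N X b x = 0 := by
        unfold fb
        rw [if_neg h]
      rw [hf]
      exact Maj_nu_nonneg l w _ _ hl hR
  · have hf : fb l w κ q N X b x = 0 := by
      unfold fb
      rw [if_neg fun h => hB h.1]
    have hnub : nub l w κ q N X b x = 1 := by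
      unfold nub
      rw [if_neg hB]
    rw [hf, hnub]
    exact zero_le_one

end Pool.Agent.Lib.MP_9f2731_nt.GP.Asm
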