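import Pool.Agent.Lib.MP_9f2731_nt.GP.Asm.Spec

/-!
MP_9f2731_nt, GP/Asm/Pts: from the lattice to numbers (helper49).
-/

set_option autoImplicit false

namespace Pool.Agent.Lib.MP_9f2731_nt.GP.Asm

open Finset
open Pool.Agent.Lib.MP_9f2731_nt.GP.Rel

/-- the integer difference of consecutive values -/
def ptsD {T M : ℕ} (x d : Fin (T + 1) → ZMod M) (t : Fin (T + 1)) : ℤ :=
  ((x + d) t).val - (x t).val

theorem ptsVal {T N M k : ℕ} [NeZero M] (hNM : 2 * N < M) (hk : 2 ≤ k)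
    (x d : Fin (T + 1) → ZMod M) (hB : ∀ j : ℕ, j < k → Bx T M N (x + j • d)) (t : Fin (T + 1)) :
    ∀ j : ℕ, j < k → ((((x + j • d) t).val : ℕ) : ℤ) = (x t).val + j * ptsD x d t := by
  intro j
  induction j with
  | zero =>
    intro _
    simp
  | succ j ih =>
    intro hj
    have h1 := ih (by omega)
    have b0 := hB 0 (by omega) t
    have b1 := hB 1 (by omega) t
    have b2 := hB j (by omega) t
    have b3 := hB (j + 1) hj t
    rw [zero_smul, add_zero] at b0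
    rw [one_smul] at b1
    have hD1 : (M : ℤ) ∣ ((((x + (j + 1) • d) t).val : ℕ) : ℤ) - (((x + j • d) t).val : ℕ) -
        ptsD x d t := by
      rw [← ZMod.intCast_eq_intCast_iff_dvd_sub]
      unfold ptsD
      push_cast
      simp only [ZMod.natCast_val, ZMod.cast_id', id_eq, Pi.add_apply, Pi.smul_apply, add_smul,
        one_smul]
      ring
    have hD2 : |((((x + (j + 1) • d) t).val : ℕ) : ℤ) - (((x + j • d) t).val : ℕ) -
        ptsD x d t| < M := by
      unfold ptsD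
      rw [abs_lt]
      constructor <;> omega
    have h3 := Int.eq_zero_of_abs_lt_dvd hD1 hD2
    push_cast
    linarith

theorem ptsGen {T : ℕ} (q : Fin T → ℕ) (hq : ∀ j, (q j).Prime) (e : Fin T → ℕ) :
    Gen q (∏ j, q j ^ e j) := by
  refine ⟨Nat.one_le_iff_ne_zero.2 (Finset.prod_ne_zero_iff.2 fun j _ =>
    pow_ne_zero _ (hq j).ne_zero), fun p hp hd => ?_⟩
  obtain ⟨j, _, hj⟩ := (hp.prime.dvd_finsetProd_iff _).1 hd
  exact ⟨j, (Nat.prime_dvd_prime_iff_eq hp (hq j)).1 (hp.dvd_of_dvd_pow hj)⟩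

theorem ptsLog {T M : ℕ} (q : Fin T → ℕ) (hq : ∀ j, (q j).Prime) (e : Fin T → ℕ)
    (he : ∀ j, e j ≤ M ^ 2) (Q : ℕ) (hQ : ∀ j, q j ≤ Q) :
    Real.log ((∏ j, q j ^ e j : ℕ) : ℝ) ≤ T * (M : ℝ) ^ 2 * Real.log Q := by
  rw [Nat.cast_prod, Real.log_prod (fun j _ => by
    rw [Nat.cast_pow]
    exact pow_ne_zero _ (Nat.cast_ne_zero.2 (hq j).ne_zero))]
  have h1 : ∀ j : Fin T, Real.log ((q j ^ e j : ℕ) : ℝ) ≤ (M : ℝ) ^ 2 * Real.log Q := by
    intro j
    rw [Nat.cast_pow, Real.log_pow]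
    have h2 : (1 : ℝ) ≤ (q j : ℝ) := by exact_mod_cast (hq j).one_lt.le
    have h3 : Real.log (q j) ≤ Real.log Q :=
      Real.log_le_log (by linarith) (by exact_mod_cast hQ j)
    have h4 : (e j : ℝ) ≤ (M : ℝ) ^ 2 := by exact_mod_cast he j
    exact mul_le_mul h4 h3 (Real.log_nonneg h2) (by positivity)
  refine (Finset.sum_le_sum fun j _ => h1 j).trans (le_of_eq ?_)
  rw [Finset.sum_const, Finset.card_univ, Fintype.card_fin, nsmul_eq_mul]
  ring

theorem ptsMain (T : ℕ) (q : Fin T → ℕ) (hP : Pq q) (N M k : ℕ) [NeZero M] (hNM : 2 * N < M)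
    (hk : 2 ≤ k) (x d : Fin (T + 1) → ZMod M) (h0 : 0 < ptsD x d 0)
    (hB : ∀ j : ℕ, j < k → Bx T M N (x + j • d)) :
    ∃ s r : ℕ, Gen q s ∧ Gen q r ∧ 2 ≤ r ∧
      (∀ Q : ℕ, (∀ j, q j ≤ Q) → Real.log s ≤ T * (M : ℝ) ^ 2 * Real.log Q ∧
        Real.log r ≤ T * (M : ℝ) ^ 2 * Real.log Q) ∧
      ∀ i : ℕ, i < k → mlt q (x + i • d) = s * r ^ i := by
  obtain ⟨hT, hq, _⟩ := hP
  have b0 : ∀ t, (x t).val < N := fun t => by
    have := hB 0 (by omega) t
    rwa [zero_smul, add_zero] at this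
  have b1 : ∀ t, ((x + d) t).val < N := fun t => by
    have := hB 1 (by omega) t
    rwa [one_smul] at this
  have hDa : ∀ t, -(N : ℤ) < ptsD x d t ∧ ptsD x d t < N := by
    intro t
    have := b0 t
    have := b1 t
    unfold ptsD
    constructor <;> omega
  have hMN : (M : ℤ) * 1 ≤ M * ptsD x d 0 := mul_le_mul_of_nonneg_left (by omega) (by omega)
  have hMN' : (M : ℤ) * ptsD x d 0 ≤ M * (N - 1) := by
    have := (hDa 0).2
    exact mul_le_mul_of_nonneg_left (by omega) (by omega)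
  -- exponents
  have hE0 : ∀ i : Fin T, 0 < ptsD x d i.succ + M * ptsD x d 0 := by
    intro i
    have := (hDa i.succ).1
    omega
  have hMM : (N : ℤ) + M * (N - 1) ≤ (M : ℤ) ^ 2 := by nlinarith
  have hE1 : ∀ i : Fin T, ptsD x d i.succ + M * ptsD x d 0 ≤ (M : ℤ) ^ 2 := by
    intro i
    have := (hDa i.succ).2
    omega
  set a : Fin T → ℕ := fun i => (x i.succ).val + M * (x 0).val with ha
  set E : Fin T → ℕ := fun i => (ptsD x d i.succ + M * ptsD x d 0).toNat with hE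
  have hEc : ∀ i, ((E i : ℕ) : ℤ) = ptsD x d i.succ + M * ptsD x d 0 := fun i =>
    Int.toNat_of_nonneg (hE0 i).le
  have haM : ∀ i, a i ≤ M ^ 2 := by
    intro i
    have h1 := b0 i.succ
    have h2 := b0 0
    have h3 : (((x i.succ).val + M * (x 0).val : ℕ) : ℤ) ≤ (M : ℤ) ^ 2 := by
      push_cast
      have h4 : (M : ℤ) * (x 0).val ≤ M * (N - 1) :=
        mul_le_mul_of_nonneg_left (by omega) (by omega)
      omega
    exact_mod_cast h3
  have hEM : ∀ i, E i ≤ M ^ 2 := by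
    intro i
    have h3 : ((E i : ℕ) : ℤ) ≤ (M : ℤ) ^ 2 := by
      rw [hEc]
      exact hE1 i
    exact_mod_cast h3
  refine ⟨∏ j, q j ^ a j, ∏ j, q j ^ E j, ptsGen q hq a, ptsGen q hq E, ?_, fun Q hQ =>
    ⟨ptsLog q hq a haM Q hQ, ptsLog q hq E hEM Q hQ⟩, fun i hi => ?_⟩
  · have h5 : q ⟨0, hT⟩ ^ E ⟨0, hT⟩ ∣ ∏ j, q j ^ E j := Finset.dvd_prod_of_mem _ (Finset.mem_univ _)
    have h6 := Nat.le_of_dvd (Nat.pos_of_ne_zero (Finset.prod_ne_zero_iff.2 fun j _ =>
      pow_ne_zero _ (hq j).ne_zero)) h5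
    refine le_trans ?_ h6
    have h7 : 0 < E ⟨0, hT⟩ := by
      have := hE0 ⟨0, hT⟩
      have := hEc ⟨0, hT⟩
      omega
    exact (hq _).two_le.trans (Nat.le_self_pow (by omega) _)
  · unfold mlt
    rw [← Finset.prod_pow, ← Finset.prod_mul_distrib]
    refine Finset.prod_congr rfl fun j _ => ?_
    rw [← pow_mul, ← pow_add]
    congr 1
    have h8 := ptsVal hNM hk x d hB j.succ i hi
    have h9 := ptsVal hNM hk x d hB 0 i hi
    have h10 : (((((x + i • d) j.succ).val + M * ((x + i • d) 0).val : ℕ)) : ℤ) =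
        ((a j + E j * i : ℕ) : ℤ) := by
      push_cast
      rw [hEc, h8, h9, ha]
      push_cast
      ring
    exact_mod_cast h10

theorem pPts : PtsStmt := by
  intro T q hP N M k _ hNM hk x d hd hB
  have hD0 : ptsD x d 0 ≠ 0 := by
    intro h
    apply hd
    unfold ptsD at h
    have h1 : ((x + d) 0).val = (x 0).val := by omega
    have h2 := ZMod.val_injective M h1
    simpa using h2
  rcases lt_or_gt_of_ne hD0 with hneg | hpos
  · -- reversed progression
    have hB' : ∀ j : ℕ, j < k → (x + (k - 1) • d) + j • (-d) = x + (k - 1 - j) • d := by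
      intro j hj
      obtain ⟨m, hm⟩ : ∃ m, k - 1 = m + j := ⟨k - 1 - j, by omega⟩
      have : k - 1 - j = m := by omega
      rw [this, hm, add_smul, smul_neg]
      abel
    have hpos' : 0 < ptsD (x + (k - 1) • d) (-d) 0 := by
      have e1 := ptsVal hNM hk x d hB 0 (k - 1) (by omega)
      have e2 := ptsVal hNM hk x d hB 0 (k - 1 - 1) (by omega)
      have e3 : (x + (k - 1) • d) + -d = x + (k - 1 - 1) • d := by
        have := hB' 1 (by omega)
        rwa [one_smul] at this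
      unfold ptsD at hneg ⊢
      rw [e3, e1, e2]
      have e4 : ((k - 1 : ℕ) : ℤ) = ((k - 1 - 1 : ℕ) : ℤ) + 1 := by
        push_cast [Nat.cast_sub (show 1 ≤ k by omega), Nat.cast_sub (show 1 ≤ k - 1 by omega)]
        ring
      unfold ptsD
      rw [e4]
      linarith
    obtain ⟨s, r, h1, h2, h3, h4, h5⟩ := ptsMain T q hP N M k hNM hk (x + (k - 1) • d) (-d) hpos'
      (fun j hj => by
        rw [hB' j hj]
        exact hB _ (by omega))
    refine ⟨s, r, h1, h2, h3, h4, fun i hi => ⟨k - 1 - i, by omega, ?_⟩⟩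
    rw [← hB' i hi]
    exact h5 i hi
  · obtain ⟨s, r, h1, h2, h3, h4, h5⟩ := ptsMain T q hP N M k hNM hk x d hpos hB
    exact ⟨s, r, h1, h2, h3, h4, fun i hi => ⟨i, hi, h5 i hi⟩⟩

end Pool.Agent.Lib.MP_9f2731_nt.GP.Asm
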