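import Pool.Agent.Lib.MP_9f2731_nt.GP.Asm.Spec

/-!
MP_9f2731_nt, GP/Asm, module Res: the final theorem from the main step.
-/

set_option autoImplicit false

namespace Pool.Agent.Lib.MP_9f2731_nt.GP.Asm

open Finset
open Pool.Agent.Lib.MP_9f2731_nt.GP.Rel

private theorem resFin (k : ℕ) (ε : ℝ) {T : ℕ} (q : Fin T → ℕ) (X : ℕ) : (good k ε q X).Finite :=
  (Set.finite_Icc 1 X).subset fun _ ha => ⟨ha.1, ha.2.1⟩

private theorem resDiv {W X' : ℕ} (hW : 1 ≤ W) : (X' : ℝ) / W - 1 ≤ ((X' / W : ℕ) : ℝ) := by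
  have hW0 : (0 : ℝ) < W := by exact_mod_cast hW
  have h1 : X' < (X' / W + 1) * W := by
    have h2 := Nat.div_add_mod X' W
    have h3 := Nat.mod_lt X' (show W > 0 by omega)
    nlinarith
  have h4 : (X' : ℝ) < (((X' / W : ℕ) : ℝ) + 1) * W := by exact_mod_cast h1
  have h5 : (X' : ℝ) / W < ((X' / W : ℕ) : ℝ) + 1 := (div_lt_iff₀ hW0).2 h4
  linarith

theorem pRes (h1 : BasStmt) : ResStmt := by
  intro k ε hε
  obtain ⟨T, hT⟩ := h1 (max k 3) ε (le_max_right _ _) hε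
  refine ⟨T, fun q hq hinj => ?_⟩
  obtain ⟨c, W, hc, hW, X0, hX0⟩ := hT q hq hinj
  have hW0 : (0 : ℝ) < W := by exact_mod_cast hW
  refine ⟨c / (2 * W), by positivity, max (2 * W) (W * (X0 + 1)), fun X' hX' => ?_⟩
  have ha : (2 * W : ℝ) ≤ X' := (le_max_left _ _).trans hX'
  have hb : (W * (X0 + 1) : ℝ) ≤ X' := (le_max_right _ _).trans hX'
  have hd := resDiv (X' := X') hW
  have hd1 : X0 ≤ ((X' / W : ℕ) : ℝ) := by
    have h2 : X0 + 1 ≤ (X' : ℝ) / W := by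
      rw [le_div_iff₀ hW0]
      linarith
    linarith
  have hd2 : (X' : ℝ) / (2 * W) ≤ ((X' / W : ℕ) : ℝ) := by
    have h2 : 2 ≤ (X' : ℝ) / W := (le_div_iff₀ hW0).2 ha
    have h3 : (X' : ℝ) / (2 * W) = (X' : ℝ) / W / 2 := by
      rw [mul_comm, ← div_div]
    rw [h3]
    linarith
  have key := hX0 (X' / W) hd1
  have hle : c / (2 * W) * X' ≤ c * ((X' / W : ℕ) : ℝ) := by
    have h3 : c / (2 * W) * X' = c * ((X' : ℝ) / (2 * W)) := by ring
    rw [h3]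
    exact mul_le_mul_of_nonneg_left hd2 hc.le
  refine hle.trans (key.trans ?_)
  have hcard : ({b : ℕ | 1 ≤ b ∧ b ≤ X' / W ∧ ∃ s r : ℕ, Gen q s ∧ Gen q r ∧ 2 ≤ r ∧
      (s : ℝ) ≤ Real.exp ((Real.log ((X' / W : ℕ) : ℝ)) ^ ε) ∧
      (r : ℝ) ≤ Real.exp ((Real.log ((X' / W : ℕ) : ℝ)) ^ ε) ∧
      ∀ i : ℕ, i < max k 3 → (W * b * s * r ^ i + 1).Prime}).ncard ≤ (good k ε q X').ncard := by
    refine Set.ncard_le_ncard_of_injOn (fun b => W * b) ?_ ?_ (resFin k ε q X')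
    · rintro b ⟨hb1, hb2, s, r, hs, hr, hr2, hse, hre, hp⟩
      have h4 : W * b ≤ X' := (Nat.mul_le_mul_left W hb2).trans (Nat.mul_div_le X' W)
      have h5 : 1 ≤ W * b := Nat.one_le_iff_ne_zero.2 (Nat.mul_ne_zero (by omega) (by omega))
      have h6 : 1 ≤ X' / W := hb1.trans hb2
      have h7 : (1 : ℝ) ≤ ((X' / W : ℕ) : ℝ) := by exact_mod_cast h6
      have h8 : ((X' / W : ℕ) : ℝ) ≤ X' := by exact_mod_cast Nat.div_le_self X' W
      have h9 : (Real.log ((X' / W : ℕ) : ℝ)) ^ ε ≤ (Real.log X') ^ ε :=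
        Real.rpow_le_rpow (Real.log_nonneg h7) (Real.log_le_log (by linarith) h8) hε.le
      have h10 := Real.exp_le_exp.2 h9
      exact ⟨h5, h4, s, r, hs, hr, hr2, hse.trans h10, hre.trans h10,
        fun i hi => hp i (lt_of_lt_of_le hi (le_max_left _ _))⟩
    · intro b _ b' _ he
      exact Nat.eq_of_mul_eq_mul_left (by omega) he
  exact_mod_cast hcard

end Pool.Agent.Lib.MP_9f2731_nt.GP.Asm
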