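import Pool.Agent.Lib.MP_9f2731_nt.GP.Asm.Spec

/-!
MP_9f2731_nt, GP/Asm, module Sec: second moment of the mean of the majorant.
-/

namespace Pool.Agent.Lib.MP_9f2731_nt.GP.Asm

open Finset
open Pool.Agent.Lib.MP_9f2731_nt.GP.Rel

private theorem sec_av {G : Type} [Fintype G] (ν : G → ℝ) :
    av (fun y : G × G => ν y.2 * ν y.1) = (av ν) ^ 2 := by
  unfold av
  rw [Fintype.sum_prod_type, Fintype.card_prod, Nat.cast_mul, div_pow, sq, sq]
  congr 1
  rw [Finset.sum_mul_sum]
  refine Finset.sum_congr rfl fun i _ => Finset.sum_congr rfl fun j _ => ?_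
  exact mul_comm _ _

private theorem sec_swap {G : Type} [Fintype G] (F : G × G → ℝ) :
    av (fun y : G × G => F (y.2, y.1)) = av F := by
  unfold av
  congr 1
  exact Equiv.sum_comp (Equiv.prodComm G G) F

/-- Module Sec. -/
theorem pSec (h1 : AvgStmt) : SecStmt := by
  intro J l κ C C2 hJ hG T q hq ε0 hε0 hT
  obtain ⟨w0, hw0⟩ := h1 J l κ C C2 hG T q hq ε0 hε0 hT 1 one_pos
  refine ⟨w0, fun w hw => ?_⟩
  obtain ⟨X0, hX0⟩ := hw0 w hw
  refine ⟨X0, fun X hX N M _ hS => ?_⟩
  have h := hX0 X hX N M hS ((Fin (T + 1) → ZMod M) × (Fin (T + 1) → ZMod M)) Bool Finset.univ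
    (fun i y => if i = true then y.2 else y.1) (by simpa using hJ) (by
      intro i _ i' _ hii F
      rcases i with _ | _ <;> rcases i' with _ | _
      · exact absurd rfl hii
      · rfl
      · exact sec_swap F
      · exact absurd rfl hii)
  have h2 : ∀ b, av (fun y : (Fin (T + 1) → ZMod M) × (Fin (T + 1) → ZMod M) =>
      ∏ i : Bool, nub l w κ q N X b (if i = true then y.2 else y.1))
      = (av (fun x : Fin (T + 1) → ZMod M => nub l w κ q N X b x)) ^ 2 := by
    intro b
    rw [← sec_av]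
    congr 1
    funext y
    rw [Fintype.prod_bool]
    rfl
  simp only [h2] at h
  have h3 := (abs_le.1 h).2
  linarith

end Pool.Agent.Lib.MP_9f2731_nt.GP.Asm
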