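import Pool.Agent.Lib.MP_9f2731_nt.GP.Asm.Spec

/-!
MP_9f2731_nt, GP/Asm, module Xav: mean values of the singular terms.
-/

namespace Pool.Agent.Lib.MP_9f2731_nt.GP.Asm

open Finset
open Pool.Agent.Lib.MP_9f2731_nt.GP.Rel

/-- exchange of the coordinate `i` with an additional variable -/
private def xav_equiv {ι V : Type} [DecidableEq ι] (i : ι) : ((ι → V) × V) ≃ ((ι → V) × V) where
  toFun p := (Function.update p.1 i p.2, p.1 i)
  invFun p := (Function.update p.1 i p.2, p.1 i)
  left_inv p := by
    refine Prod.ext ?_ ?_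
    · simp
    · simp
  right_inv p := by
    refine Prod.ext ?_ ?_
    · simp
    · simp

private theorem xav_upd {ι V : Type} [Fintype ι] [DecidableEq ι] [Fintype V] (i : ι) (h : (ι → V) → ℝ) :
    (Fintype.card V : ℝ) * ∑ v, h v = ∑ v : ι → V, ∑ b : V, h (Function.update v i b) := by
  have h1 : ∑ v : ι → V, ∑ b : V, h (Function.update v i b)
      = ∑ p : (ι → V) × V, h (xav_equiv i p).1 := by
    rw [Fintype.sum_prod_type]
    rfl
  have h2 : ∑ p : (ι → V) × V, h (xav_equiv i p).1 = ∑ p : (ι → V) × V, h p.1 :=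
    Equiv.sum_comp (xav_equiv i) fun p => h p.1
  rw [h1, h2, Fintype.sum_prod_type, Finset.mul_sum]
  refine Finset.sum_congr rfl fun v _ => ?_
  simp

private theorem xav_sing {C : ℝ} (hC : 0 < C) (w n : ℕ) : 0 ≤ sing C w n - 1 := by
  have h : (1 : ℝ) ≤ sing C w n := by
    unfold sing
    calc (1 : ℝ) = ∏ p ∈ n.primeFactors.filter (fun p => w < p), (1 : ℝ) := by simp
      _ ≤ _ := Finset.prod_le_prod (fun p _ => zero_le_one) fun p _ => by
          have : 0 ≤ C / (p : ℝ) := by positivity
          linarith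
  linarith

private theorem xav_range {M : ℕ} [NeZero M] {N : ℕ} (hN : N < M) (g : ZMod M → ℝ) :
    ∑ b : ZMod M, (if b.val < N then g b else 0) = ∑ a ∈ range N, g (a : ZMod M) := by
  rw [← Finset.sum_filter]
  refine Finset.sum_nbij' (fun b => b.val) (fun a => (a : ZMod M)) ?_ ?_ ?_ ?_ ?_
  · intro b hb
    exact Finset.mem_range.2 (Finset.mem_filter.1 hb).2
  · intro a ha
    have h : a < M := (Finset.mem_range.1 ha).trans hN
    refine Finset.mem_filter.2 ⟨Finset.mem_univ _, ?_⟩
    rw [ZMod.val_cast_of_lt h]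
    exact Finset.mem_range.1 ha
  · intro b _
    exact ZMod.natCast_zmod_val b
  · intro a ha
    exact ZMod.val_cast_of_lt ((Finset.mem_range.1 ha).trans hN)
  · intro b _
    rw [ZMod.natCast_zmod_val]

/-- Module Xav. -/
theorem pXav (h1 : RomPStmt) : XavStmt := by
  intro T q hq C η hC hη
  obtain ⟨w0, hw0⟩ := h1 T q hq.2.1 C η hC hη
  refine ⟨w0, fun w hw => ?_⟩
  obtain ⟨N0, hN0⟩ := hw0 w hw
  refine ⟨N0, fun N M _ hN hNM hM4 => ?_⟩
  have hrom := hN0 N M hN hNM hM4
  let i : Fin T := ⟨0, hq.1⟩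
  have hM0 : (0 : ℝ) < M := by
    have : 0 < M := Nat.pos_of_ne_zero (NeZero.ne M)
    exact_mod_cast this
  have hcardM : (Fintype.card (ZMod M) : ℝ) = M := by rw [ZMod.card]
  have hcard : (Fintype.card (Fin (T + 1) → ZMod M) : ℝ) = (M : ℝ) ^ (T + 1) := by
    rw [Fintype.card_fun, ZMod.card, Fintype.card_fin, Nat.cast_pow]
  have hNM' : (N : ℝ) ≤ M := by exact_mod_cast hNM.le
  -- the terms are nonnegative
  have hXi0 : ∀ u v : Fin (T + 1) → ZMod M, 0 ≤ Xi C w q N u v := by
    intro u v
    unfold Xi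
    split_ifs
    · exact xav_sing hC _ _
    · exact le_rfl
  -- the sum over the coordinate i
  have hin : ∀ u v : Fin (T + 1) → ZMod M,
      ∑ b : ZMod M, Xi C w q N u (Function.update v i.succ b) ≤ η * N := by
    intro u v
    refine le_trans ?_ (hrom i u v)
    rw [← xav_range hNM fun b => if Function.update v i.succ b ≠ u then
        sing C w (Nat.dist (mlt q u) (mlt q (Function.update v i.succ b))) - 1 else 0]
    refine Finset.sum_le_sum fun b _ => ?_
    by_cases hX : Bx T M N u ∧ Bx T M N (Function.update v i.succ b) ∧ u ≠ Function.update v i.succ b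
    · have hb : b.val < N := by
        have := hX.2.1 i.succ
        simpa using this
      rw [if_pos hb, if_pos (Ne.symm hX.2.2)]
      unfold Xi
      rw [if_pos hX]
    · have h0 : Xi C w q N u (Function.update v i.succ b) = 0 := by
        unfold Xi
        rw [if_neg hX]
      rw [h0]
      split_ifs
      · exact xav_sing hC _ _
      · exact le_rfl
      · exact le_rfl
  constructor
  · have hu : ∀ u : Fin (T + 1) → ZMod M, ∑ v, Xi C w q N u v ≤ η * (M : ℝ) ^ (T + 1) := by
      intro u
      have h2 := xav_upd i.succ fun v : Fin (T + 1) → ZMod M => Xi C w q N u v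
      rw [hcardM] at h2
      have h3 : ∑ v : Fin (T + 1) → ZMod M, ∑ b : ZMod M, Xi C w q N u (Function.update v i.succ b)
          ≤ (M : ℝ) ^ (T + 1) * (η * N) := by
        refine (Finset.sum_le_sum fun v _ => hin u v).trans ?_
        rw [Finset.sum_const, Finset.card_univ, nsmul_eq_mul, hcard]
      have h4 : (M : ℝ) * ∑ v, Xi C w q N u v ≤ M * (η * (M : ℝ) ^ (T + 1)) := by
        rw [h2]
        refine h3.trans ?_
        have h5 : η * N ≤ η * M := mul_le_mul_of_nonneg_left hNM' hη.le
        have h6 : (0 : ℝ) ≤ (M : ℝ) ^ (T + 1) := by positivity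
        nlinarith
      exact le_of_mul_le_mul_left h4 hM0
    refine (Finset.sum_le_sum fun u _ => hu u).trans ?_
    rw [Finset.sum_const, Finset.card_univ, nsmul_eq_mul, hcard]
    exact le_of_eq (by ring)
  · -- the number of v with a prescribed coordinate 0
    have hcnt : ∀ z : ZMod M, (M : ℝ) * ∑ v : Fin (T + 1) → ZMod M, (if z = v 0 then (1 : ℝ) else 0)
        = (M : ℝ) ^ (T + 1) := by
      intro z
      have h2 := xav_upd (0 : Fin (T + 1)) fun v : Fin (T + 1) → ZMod M => if z = v 0 then (1 : ℝ) else 0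
      rw [hcardM] at h2
      rw [h2]
      simp only [Function.update_self, Finset.sum_ite_eq, Finset.mem_univ, if_true]
      rw [Finset.sum_const, Finset.card_univ, nsmul_eq_mul, hcard, mul_one]
    have hu : ∀ u : Fin (T + 1) → ZMod M,
        (M : ℝ) * ∑ v, (if u 0 = v 0 then Xi C w q N u v else 0) ≤ η * (M : ℝ) ^ (T + 1) := by
      intro u
      have h2 := xav_upd i.succ fun v : Fin (T + 1) → ZMod M => if u 0 = v 0 then Xi C w q N u v else 0
      rw [hcardM] at h2
      rw [h2]
      have h3 : ∀ v : Fin (T + 1) → ZMod M,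
          ∑ b : ZMod M, (if u 0 = (Function.update v i.succ b) 0 then
            Xi C w q N u (Function.update v i.succ b) else 0) ≤ (if u 0 = v 0 then (1 : ℝ) else 0) * (η * N) := by
        intro v
        have h4 : ∀ b, (Function.update v i.succ b) 0 = v 0 := fun b =>
          Function.update_of_ne (Fin.succ_ne_zero i).symm _ _
        simp only [h4]
        split_ifs with h
        · rw [one_mul]
          exact hin u v
        · simp
      refine (Finset.sum_le_sum fun v _ => h3 v).trans ?_
      rw [← Finset.sum_mul]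
      have h5 := hcnt (u 0)
      have h6 : (0 : ℝ) ≤ ∑ v : Fin (T + 1) → ZMod M, (if u 0 = v 0 then (1 : ℝ) else 0) :=
        Finset.sum_nonneg fun v _ => by split_ifs <;> norm_num
      calc (∑ v : Fin (T + 1) → ZMod M, (if u 0 = v 0 then (1 : ℝ) else 0)) * (η * N)
          ≤ (∑ v : Fin (T + 1) → ZMod M, (if u 0 = v 0 then (1 : ℝ) else 0)) * (η * M) :=
            mul_le_mul_of_nonneg_left (mul_le_mul_of_nonneg_left hNM' hη.le) h6
        _ = η * (M * ∑ v : Fin (T + 1) → ZMod M, (if u 0 = v 0 then (1 : ℝ) else 0)) := by ring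
        _ = η * (M : ℝ) ^ (T + 1) := by rw [h5]
    rw [le_div_iff₀ hM0, Finset.sum_mul]
    refine (Finset.sum_le_sum fun u _ => (mul_comm _ _).trans_le (hu u)).trans ?_
    rw [Finset.sum_const, Finset.card_univ, nsmul_eq_mul, hcard]
    exact le_of_eq (by ring)

end Pool.Agent.Lib.MP_9f2731_nt.GP.Asm
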