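import Pool.Agent.Lib.MP_9f2731_nt.GP.Asm.Mlt
import Pool.Agent.Lib.MP_9f2731_nt.GP.Asm.Sng
import Pool.Agent.Lib.MP_9f2731_nt.GP.Asm.Maj
import Pool.Agent.Lib.MP_9f2731_nt.GP.Asm.Gen
import Pool.Agent.Lib.MP_9f2731_nt.GP.Asm.Eqd
import Pool.Agent.Lib.MP_9f2731_nt.GP.Asm.Xav
import Pool.Agent.Lib.MP_9f2731_nt.GP.Asm.Avg
import Pool.Agent.Lib.MP_9f2731_nt.GP.Asm.Lf2
import Pool.Agent.Lib.MP_9f2731_nt.GP.Asm.Sec
import Pool.Agent.Lib.MP_9f2731_nt.GP.Asm.Deg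
import Pool.Agent.Lib.MP_9f2731_nt.GP.Asm.Den
import Pool.Agent.Lib.MP_9f2731_nt.GP.Asm.Sel
import Pool.Agent.Lib.MP_9f2731_nt.GP.Asm.Pts
import Pool.Agent.Lib.MP_9f2731_nt.GP.Asm.Bas
import Pool.Agent.Lib.MP_9f2731_nt.GP.Asm.Res
import Pool.Agent.Lib.MP_9f2731_nt.GP.Alm.Dna
import Pool.Agent.Lib.MP_9f2731_nt.GP.Alm.Bsa

/-!
MP_9f2731_nt, GP/Asm: the two results from the blocks.
-/

namespace Pool.Agent.Lib.MP_9f2731_nt.GP.Asm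

open Pool.Agent.Lib.MP_9f2731_nt.GP.Alm

theorem asmAll (hRel : RelStmt) (hCor : CorStmt) (hMom : MomStmt) (hRom : RomPStmt)
    (hAp : ApStmt) : ResStmt ∧ BsaStmt := by
  have aXav := pXav hRom
  have aAvg := pAvg aXav
  have aGen := pGen hCor hMom pMlt pSng
  have aLf2 := pLf2 aAvg pEqd
  have aSec := pSec aAvg
  have aDeg := pDeg aXav
  exact ⟨pRes (pBas hRel aGen aLf2 aSec aDeg (pDen hAp pMlt) pMaj pSel pPts),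
    pBsa hRel aGen aLf2 aSec aDeg (pDna hAp pMlt) pMaj pSel pPts pMlt⟩

end Pool.Agent.Lib.MP_9f2731_nt.GP.Asm
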