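import Pool.Agent.Lib.MP_9f2731_nt.GP.Asm.Lf2

/-!
MP_9f2731_nt, GP/Asm/Deg: degenerate differences (helper49).
-/

set_option autoImplicit false

namespace Pool.Agent.Lib.MP_9f2731_nt.GP.Asm

open Finset
open Pool.Agent.Lib.MP_9f2731_nt.GP.Rel

theorem deg_sing {C : ℝ} (hC : 0 < C) (w n : ℕ) : 1 ≤ sing C w n := by
  unfold sing
  have h := Finset.prod_le_prod (s := n.primeFactors.filter (fun p => w < p))
    (f := fun _ => (1 : ℝ)) (g := fun p : ℕ => (1 + C / (p : ℝ))) (fun _ _ => zero_le_one)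
    (fun p _ => by
      have : 0 ≤ C / (p : ℝ) := by positivity
      linarith)
  rwa [Finset.prod_const_one] at h

theorem deg_Xi {C : ℝ} (hC : 0 < C) (w : ℕ) {T M : ℕ} (q : Fin T → ℕ) (N : ℕ)
    (u v : Fin (T + 1) → ZMod M) : 0 ≤ Xi C w q N u v := by
  unfold Xi
  split_ifs
  · have := deg_sing hC w (Nat.dist (mlt q u) (mlt q v))
    linarith
  · exact le_rfl

/-- the pairs with `d 0 = 0` -/
abbrev degY (T M : ℕ) : Type :=
  {p : (Fin (T + 1) → ZMod M) × (Fin (T + 1) → ZMod M) // p.2 0 = 0}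

theorem deg_card (T M : ℕ) [NeZero M] :
    (Fintype.card (degY T M) : ℝ) ≤ (M : ℝ) ^ (T + 1) * (M : ℝ) ^ T := by
  have h : Fintype.card (degY T M) ≤
      Fintype.card ((Fin (T + 1) → ZMod M) × (Fin T → ZMod M)) := by
    refine Fintype.card_le_of_injective (fun y => (y.1.1, Fin.tail y.1.2)) ?_
    rintro ⟨⟨x, d⟩, hd⟩ ⟨⟨x', d'⟩, hd'⟩ h
    simp only [Prod.mk.injEq] at h
    obtain ⟨h1, h2⟩ := h
    simp only at hd hd'
    have h3 : d = d' := by
      rw [← Fin.cons_self_tail d, ← Fin.cons_self_tail d', h2, hd, hd']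
    simp [h1, h3]
  rw [Fintype.card_prod, Fintype.card_fun, Fintype.card_fun, ZMod.card, Fintype.card_fin,
    Fintype.card_fin] at h
  exact_mod_cast h

theorem deg_eq {M k : ℕ} (hM : M.Prime) (hk : k ≤ M) (i i' : Fin k) (hne : i ≠ i')
    {a b d d' : ZMod M} (h1 : a + (i : ℕ) • d = b + (i : ℕ) • d')
    (h2 : a + (i' : ℕ) • d = b + (i' : ℕ) • d') : d = d' := by
  have : Fact M.Prime := ⟨hM⟩
  rw [nsmul_eq_mul, nsmul_eq_mul] at h1 h2
  have h3 : (((i : ℕ) : ZMod M) - ((i' : ℕ) : ZMod M)) * (d - d') = 0 := by linear_combination h1 - h2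
  rcases mul_eq_zero.1 h3 with h4 | h4
  · exfalso
    apply hne
    rw [sub_eq_zero, ZMod.natCast_eq_natCast_iff, Nat.ModEq,
      Nat.mod_eq_of_lt (i.2.trans_le hk), Nat.mod_eq_of_lt (i'.2.trans_le hk)] at h4
    exact Fin.ext h4
  · exact sub_eq_zero.1 h4

theorem deg_large {ε0 θ C : ℝ} (h : 0 < ε0) (hθ : 0 < θ) (k : ℕ) : ∃ X1 : ℝ, ∀ X : ℕ, X1 ≤ X →
    1 ≤ Real.log X ∧ 2 + C * (k : ℝ) ^ 2 ≤ (θ / 2) * (Real.log X) ^ ε0 ∧
      (k : ℝ) ^ 2 ≤ (θ / 2) * (Real.log X) ^ 2 := by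
  have h1 : Filter.Tendsto (fun x : ℝ => (θ / 2) * (Real.log x) ^ ε0) Filter.atTop Filter.atTop :=
    ((tendsto_rpow_atTop h).comp Real.tendsto_log_atTop).const_mul_atTop (by positivity)
  have h2 : Filter.Tendsto (fun x : ℝ => (θ / 2) * (Real.log x) ^ 2) Filter.atTop Filter.atTop :=
    ((Filter.tendsto_pow_atTop two_ne_zero).comp Real.tendsto_log_atTop).const_mul_atTop
      (by positivity)
  obtain ⟨X1, hX1⟩ := Filter.eventually_atTop.1
    ((Real.tendsto_log_atTop.eventually_ge_atTop 1).and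
      ((h1.eventually_ge_atTop (2 + C * (k : ℝ) ^ 2)).and (h2.eventually_ge_atTop ((k : ℝ) ^ 2))))
  exact ⟨X1, fun X hX => hX1 X hX⟩

theorem deg_pairs {k : ℕ} {B : ℝ} (hB : 0 ≤ B) (f : Fin k → Fin k → ℝ)
    (hf : ∀ i i', i ≠ i' → f i i' ≤ B) :
    ∑ i : Fin k, ∑ i' ∈ univ.erase i, f i i' ≤ (k : ℝ) ^ 2 * B := by
  have h1 : ∀ i : Fin k, ∑ i' ∈ univ.erase i, f i i' ≤ k * B := by
    intro i
    refine (Finset.sum_le_sum (g := fun _ => B) fun i' hi' => hf i i'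
      (Ne.symm (Finset.ne_of_mem_erase hi'))).trans ?_
    rw [Finset.sum_const, nsmul_eq_mul]
    refine mul_le_mul_of_nonneg_right ?_ hB
    have := Finset.card_le_univ ((univ : Finset (Fin k)).erase i)
    rw [Fintype.card_fin] at this
    exact_mod_cast this
  refine (Finset.sum_le_sum fun i _ => h1 i).trans (le_of_eq ?_)
  rw [Finset.sum_const, Finset.card_univ, Fintype.card_fin, nsmul_eq_mul]
  ring

theorem deg_av {A : Type} [Fintype A] [Nonempty A] (g : A → ℝ) :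
    (Fintype.card A : ℝ) * av g = ∑ x, g x := by
  unfold av
  have h : (Fintype.card A : ℝ) ≠ 0 := Nat.cast_ne_zero.2 Fintype.card_ne_zero
  field_simp

theorem deg_sum {T M : ℕ} [NeZero M] (F : (Fin (T + 1) → ZMod M) → (Fin (T + 1) → ZMod M) → ℝ) :
    (∑ x : Fin (T + 1) → ZMod M, ∑ d : Fin (T + 1) → ZMod M, if d 0 = 0 then F x d else 0) =
      ∑ y : degY T M, F y.1.1 y.1.2 := by
  rw [← Fintype.sum_prod_type' (f := fun x d : Fin (T + 1) → ZMod M =>
    if d 0 = 0 then F x d else 0), ← Finset.sum_filter]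
  exact Finset.sum_subtype _ (fun p => by rw [Finset.mem_filter]; simp)
    (fun p : (Fin (T + 1) → ZMod M) × (Fin (T + 1) → ZMod M) => F p.1 p.2)

theorem pDeg (h1 : XavStmt) : DegStmt := by
  intro k J l κ C C2 hk hkJ hG T q hq ε0 hε0 hC2 θ hθ
  obtain ⟨-, -, -, hC, -, H⟩ := hG
  obtain ⟨wa, Ha⟩ := H T q hq 1 one_pos
  obtain ⟨wb, Hb⟩ := h1 T q hq C 1 hC one_pos
  refine ⟨max wa wb, fun w hw => ?_⟩
  obtain ⟨Xa, Hc⟩ := Ha w ((le_max_left _ _).trans hw)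
  obtain ⟨N0, Hd⟩ := Hb w ((le_max_right _ _).trans hw)
  obtain ⟨X1, hX1⟩ := lf2_large hε0 (max N0 k)
  obtain ⟨X2, hX2⟩ := deg_large (C := C) hε0 hθ k
  refine ⟨max Xa (max X1 X2), fun X hX N M _ hS => ?_⟩
  have hNk := hX1 X (((le_max_left _ _).trans (le_max_right _ _)).trans hX) N M hS
  obtain ⟨hL1, hL2, hL3⟩ := hX2 X (((le_max_right _ _).trans (le_max_right _ _)).trans hX)
  have hN0 : N0 ≤ N := (le_max_left _ _).trans hNk
  have hkN : k ≤ N := (le_max_right _ _).trans hNk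
  obtain ⟨hNe, hM1, hM2, hMp⟩ := hS
  have hkM : k ≤ M := by omega
  obtain ⟨_, hXi⟩ := Hd N M hN0 (by omega) hM2
  set L : ℝ := Real.log X with hL
  have hML : L ^ ε0 ≤ (M : ℝ) := by
    have h2 := Nat.lt_floor_add_one (L ^ ε0)
    rw [← hNe] at h2
    have h3 : ((N + 1 : ℕ) : ℝ) ≤ (M : ℝ) := by exact_mod_cast (by omega : N + 1 ≤ M)
    push_cast at h3
    linarith
  have hM0 : (0 : ℝ) < M := by exact_mod_cast hMp.pos
  have : Nonempty (degY T M) := ⟨⟨(0, 0), rfl⟩⟩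
  have hgen := Hc X ((le_max_left _ _).trans hX) N M (degY T M) (Fin k) univ
    (fun j y => y.1.1 + (j : ℕ) • y.1.2) (by rw [Finset.card_univ, Fintype.card_fin]; exact hkJ)
  set cY : ℝ := (Fintype.card (degY T M) : ℝ) with hcY
  have hcY0 : 0 ≤ cY := Nat.cast_nonneg _
  set P : ℕ → degY T M → ℝ := fun b y =>
    ∏ j : Fin k, nub l w κ q N X b (y.1.1 + (j : ℕ) • y.1.2) with hP
  have hlhs : eb X (fun b => ∑ x : Fin (T + 1) → ZMod M, ∑ d : Fin (T + 1) → ZMod M,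
        if d 0 = 0 then ∏ j : Fin k, nub l w κ q N X b (x + (j : ℕ) • d) else 0) =
      cY * eb X (fun b => av (P b)) := by
    unfold eb
    rw [← mul_div_assoc, Finset.mul_sum]
    congr 1
    refine Finset.sum_congr rfl fun b _ => ?_
    rw [deg_av]
    exact deg_sum (fun x d => ∏ j : Fin k, nub l w κ q N X b (x + (j : ℕ) • d))
  rw [hlhs]
  -- the singular terms
  have hs1 : ∀ i i' : Fin k, i ≠ i' → cY * av (fun y : degY T M =>
      Xi C w q N (y.1.1 + (i : ℕ) • y.1.2) (y.1.1 + (i' : ℕ) • y.1.2)) ≤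
      1 * ((M : ℝ) ^ (T + 1)) ^ 2 / M := by
    intro i i' hne
    rw [deg_av]
    refine le_trans ?_ hXi
    set F : (Fin (T + 1) → ZMod M) × (Fin (T + 1) → ZMod M) → ℝ := fun p =>
      if p.1 0 = p.2 0 then Xi C w q N p.1 p.2 else 0 with hF
    have hF0 : ∀ p, 0 ≤ F p := fun p => by
      simp only [hF]
      split_ifs
      · exact deg_Xi hC w q N _ _
      · exact le_rfl
    let φ : degY T M ↪ (Fin (T + 1) → ZMod M) × (Fin (T + 1) → ZMod M) :=
      ⟨fun y => (y.1.1 + (i : ℕ) • y.1.2, y.1.1 + (i' : ℕ) • y.1.2), by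
        rintro ⟨⟨x, d⟩, hd⟩ ⟨⟨x', d'⟩, hd'⟩ h
        simp only [Prod.mk.injEq] at h
        obtain ⟨g1, g2⟩ := h
        have g3 : d = d' := by
          funext t
          exact deg_eq hMp hkM i i' hne (congrFun g1 t) (congrFun g2 t)
        subst g3
        have g4 : x = x' := add_right_cancel g1
        subst g4
        rfl⟩
    have e1 : ∑ y : degY T M, Xi C w q N (y.1.1 + (i : ℕ) • y.1.2) (y.1.1 + (i' : ℕ) • y.1.2) =
        ∑ p ∈ univ.map φ, F p := by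
      rw [Finset.sum_map]
      refine Finset.sum_congr rfl fun y _ => ?_
      simp only [hF, φ, Function.Embedding.coeFn_mk]
      rw [if_pos]
      simp [y.2]
    rw [e1, ← Fintype.sum_prod_type' (f := fun u v : Fin (T + 1) → ZMod M =>
      if u 0 = v 0 then Xi C w q N u v else 0)]
    exact Finset.sum_le_univ_sum_of_nonneg hF0
  -- the coincidences
  have hs2 : ∀ i i' : Fin k, i ≠ i' → cY * av (fun y : degY T M =>
      if y.1.1 + (i : ℕ) • y.1.2 = y.1.1 + (i' : ℕ) • y.1.2 then (1 : ℝ) else 0) ≤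
      (M : ℝ) ^ (T + 1) := by
    intro i i' hne
    rw [deg_av, Finset.sum_boole]
    have e2 : (Finset.univ.filter (fun y : degY T M =>
        y.1.1 + (i : ℕ) • y.1.2 = y.1.1 + (i' : ℕ) • y.1.2)).card ≤
        (Finset.univ : Finset (Fin (T + 1) → ZMod M)).card := by
      refine Finset.card_le_card_of_injOn (fun y => y.1.1) (fun _ _ => Finset.mem_univ _) ?_
      have hz : ∀ y : degY T M, y.1.1 + (i : ℕ) • y.1.2 = y.1.1 + (i' : ℕ) • y.1.2 →
          y.1.2 = 0 := by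
        intro y hy
        funext t
        have g1 : (i : ℕ) • y.1.2 t = (i' : ℕ) • y.1.2 t := congrFun (add_left_cancel hy) t
        have g2 : (0 : ZMod M) + (i : ℕ) • y.1.2 t = (i : ℕ) • y.1.2 t + (i : ℕ) • 0 := by simp
        have g3 : (0 : ZMod M) + (i' : ℕ) • y.1.2 t = (i : ℕ) • y.1.2 t + (i' : ℕ) • 0 := by
          rw [g1]
          simp
        exact deg_eq hMp hkM i i' hne g2 g3
      rintro ⟨⟨x, d⟩, hd⟩ hy ⟨⟨x', d'⟩, hd'⟩ hy' hxx
      have g4 := hz _ (Finset.mem_filter.1 hy).2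
      have g5 := hz _ (Finset.mem_filter.1 hy').2
      simp only at g4 g5 hxx
      subst g4 g5 hxx
      rfl
    rw [Finset.card_univ, Fintype.card_fun, ZMod.card, Fintype.card_fin] at e2
    exact_mod_cast e2
  have hU := (abs_le.1 hgen).2
  have hsum1 : cY * ∑ i : Fin k, ∑ i' ∈ univ.erase i, av (fun y : degY T M =>
      Xi C w q N (y.1.1 + (i : ℕ) • y.1.2) (y.1.1 + (i' : ℕ) • y.1.2)) ≤
      (k : ℝ) ^ 2 * (1 * ((M : ℝ) ^ (T + 1)) ^ 2 / M) := by
    rw [Finset.mul_sum]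
    simp only [Finset.mul_sum]
    exact deg_pairs (by positivity) _ hs1
  have hsum2 : cY * ∑ i : Fin k, ∑ i' ∈ univ.erase i, av (fun y : degY T M =>
      if y.1.1 + (i : ℕ) • y.1.2 = y.1.1 + (i' : ℕ) • y.1.2 then (1 : ℝ) else 0) ≤
      (k : ℝ) ^ 2 * (M : ℝ) ^ (T + 1) := by
    rw [Finset.mul_sum]
    simp only [Finset.mul_sum]
    exact deg_pairs (by positivity) _ hs2
  have hLC : 0 ≤ L ^ C2 := Real.rpow_nonneg (by linarith) _
  have hcard := deg_card T M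
  rw [← hcY] at hcard
  have hsq : ((M : ℝ) ^ (T + 1)) ^ 2 = (M : ℝ) * ((M : ℝ) ^ (T + 1) * (M : ℝ) ^ T) := by ring
  have hsq' : 1 * ((M : ℝ) ^ (T + 1)) ^ 2 / M = (M : ℝ) ^ (T + 1) * (M : ℝ) ^ T := by
    rw [hsq]
    field_simp
  rw [hsq'] at hsum1
  have hpow : L ^ C2 * L ^ 2 ≤ (M : ℝ) ^ (T + 1) := by
    have hL0 : 0 < L := by linarith
    calc L ^ C2 * L ^ 2 = L ^ (C2 + 2) := by
          rw [Real.rpow_add hL0, Real.rpow_two]
      _ ≤ L ^ (ε0 * (T + 1)) := Real.rpow_le_rpow_of_exponent_le hL1 hC2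
      _ = (L ^ ε0) ^ (T + 1) := by
          rw [← Real.rpow_natCast, ← Real.rpow_mul hL0.le]
          push_cast
          rfl
      _ ≤ (M : ℝ) ^ (T + 1) := pow_le_pow_left₀ (Real.rpow_nonneg hL0.le _) hML _
  set W : ℝ := (M : ℝ) ^ (T + 1) * (M : ℝ) ^ T with hW
  have hW0 : 0 ≤ W := by positivity
  have hV0 : 0 ≤ (M : ℝ) ^ (T + 1) := by positivity
  rw [hsq]
  -- first part
  have p1 : W * (2 + C * (k : ℝ) ^ 2) ≤ (θ / 2) * ((M : ℝ) * W) := by
    have := mul_le_mul_of_nonneg_left (hL2.trans (mul_le_mul_of_nonneg_left hML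
      (by positivity : 0 ≤ θ / 2))) hW0
    linarith
  have p2 : L ^ C2 * ((k : ℝ) ^ 2 * (M : ℝ) ^ (T + 1)) ≤ (θ / 2) * ((M : ℝ) * W) := by
    have q1 : L ^ C2 * (k : ℝ) ^ 2 ≤ (θ / 2) * (M : ℝ) ^ (T + 1) := by
      have q2 := mul_le_mul_of_nonneg_left hL3 hLC
      have q3 := mul_le_mul_of_nonneg_left hpow (by positivity : 0 ≤ θ / 2)
      linarith
    have q4 := mul_le_mul_of_nonneg_right q1 hV0
    have q5 : (M : ℝ) * W = (M : ℝ) ^ (T + 1) * (M : ℝ) ^ (T + 1) := by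
      rw [hW]
      ring
    rw [q5]
    linarith
  have hfin := mul_le_mul_of_nonneg_left hU hcY0
  have hs3 := mul_le_mul_of_nonneg_left hsum1 hC.le
  have hs4 := mul_le_mul_of_nonneg_left hsum2 hLC
  simp only [mul_sub, mul_add, mul_one] at hfin
  have hfin2 : cY * eb X (fun b => av (P b)) ≤ cY + cY + C * ((k : ℝ) ^ 2 * W) +
      L ^ C2 * ((k : ℝ) ^ 2 * (M : ℝ) ^ (T + 1)) := by
    linarith
  linarith

end Pool.Agent.Lib.MP_9f2731_nt.GP.Asm
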