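import Pool.Agent.Lib.MP_9f2731_nt.GP.Asm.Spec

/-!
MP_9f2731_nt, GP/Asm, module Mlt: the multipliers of the points of the exponent lattice.
-/

namespace Pool.Agent.Lib.MP_9f2731_nt.GP.Asm

open Finset
open Pool.Agent.Lib.MP_9f2731_nt.GP.Rel

private theorem mlt_fact {T : ℕ} {q : Fin T → ℕ} (hq : Pq q) (e : Fin T → ℕ) (i : Fin T) :
    (∏ j, q j ^ e j).factorization (q i) = e i := by
  rw [Nat.factorization_prod fun j _ => pow_ne_zero _ (hq.2.1 j).ne_zero, Finsupp.finsetSum_apply,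
    Finset.sum_eq_single i]
  · rw [(hq.2.1 i).factorization_pow, Finsupp.single_eq_same]
  · intro j _ hj
    rw [(hq.2.1 j).factorization_pow, Finsupp.single_eq_of_ne]
    intro h
    first
      | exact hj (hq.2.2 h)
      | exact hj (hq.2.2 h.symm)
  · intro h
    exact absurd (Finset.mem_univ i) h

private theorem mlt_inj {T : ℕ} {q : Fin T → ℕ} (hq : Pq q) (M : ℕ) [NeZero M] :
    Function.Injective (fun x : Fin (T + 1) → ZMod M => mlt q x) := by
  intro x y hxy
  have he : ∀ j : Fin T, (x j.succ).val + M * (x 0).val = (y j.succ).val + M * (y 0).val := by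
    intro j
    have h1 := mlt_fact hq (fun j : Fin T => (x j.succ).val + M * (x 0).val) j
    have h2 := mlt_fact hq (fun j : Fin T => (y j.succ).val + M * (y 0).val) j
    rw [← h1, ← h2]
    exact congrArg (fun n => Nat.factorization n (q j)) hxy
  have hM : 0 < M := Nat.pos_of_ne_zero (NeZero.ne M)
  have hs : ∀ j : Fin T, (x j.succ).val = (y j.succ).val ∧ (x 0).val = (y 0).val := by
    intro j
    have h := he j
    have hx := ZMod.val_lt (x j.succ)
    have hy := ZMod.val_lt (y j.succ)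
    constructor
    · have h3 := congrArg (· % M) h
      simpa [Nat.add_mul_mod_self_left, Nat.mod_eq_of_lt hx, Nat.mod_eq_of_lt hy] using h3
    · have h3 := congrArg (· / M) h
      simpa [Nat.add_mul_div_left _ _ hM, Nat.div_eq_of_lt hx, Nat.div_eq_of_lt hy] using h3
  have j0 : Fin T := ⟨0, hq.1⟩
  funext i
  refine Fin.cases ?_ (fun j => ?_) i
  · exact ZMod.val_injective M (hs j0).2
  · exact ZMod.val_injective M (hs j).1

private theorem mlt_dvd {T : ℕ} {q : Fin T → ℕ} (hq : Pq q) (e : Fin T → ℕ) {p : ℕ} (hp : p.Prime)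
    (h : p ∣ ∏ j, q j ^ e j) : ∃ j, p = q j := by
  obtain ⟨j, _, hj⟩ := (Prime.dvd_finsetProd_iff hp.prime _).1 h
  exact ⟨j, (Nat.prime_dvd_prime_iff_eq hp (hq.2.1 j)).1 (hp.dvd_of_dvd_pow hj)⟩

private theorem mlt_log {T : ℕ} {q : Fin T → ℕ} (hq : Pq q) (e : Fin T → ℕ) (E : ℝ)
    (hE : ∀ j, (e j : ℝ) ≤ E) (Q : ℕ) (hQ : ∀ j, q j ≤ Q) :
    Real.log ((∏ j, q j ^ e j : ℕ) : ℝ) ≤ T * E * Real.log Q := by
  rw [Nat.cast_prod, Real.log_prod]
  · calc ∑ j : Fin T, Real.log ((q j ^ e j : ℕ) : ℝ) ≤ ∑ _j : Fin T, E * Real.log Q := by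
          refine Finset.sum_le_sum fun j _ => ?_
          rw [Nat.cast_pow, Real.log_pow]
          have h1 : (1 : ℝ) ≤ q j := by exact_mod_cast (hq.2.1 j).one_lt.le
          have h2 : 0 ≤ Real.log (q j) := Real.log_nonneg h1
          have h3 : Real.log (q j) ≤ Real.log Q :=
            Real.log_le_log (by linarith) (by exact_mod_cast hQ j)
          have h4 : (0 : ℝ) ≤ e j := Nat.cast_nonneg _
          exact mul_le_mul (hE j) h3 h2 (h4.trans (hE j))
      _ = T * E * Real.log Q := by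
          rw [Finset.sum_const, Finset.card_univ, Fintype.card_fin, nsmul_eq_mul]
          ring
  · intro j _
    have : q j ^ e j ≠ 0 := pow_ne_zero _ (hq.2.1 j).ne_zero
    exact_mod_cast this

/-- Module Mlt. -/
theorem pMlt : MltStmt := by
  intro T q hq M _
  refine ⟨mlt_inj hq M, fun w hw x => ⟨?_, fun p hp hpd => ?_⟩, fun Q hQ x => ?_⟩
  · exact Nat.one_le_iff_ne_zero.2 (Finset.prod_ne_zero_iff.2 fun j _ => pow_ne_zero _ (hq.2.1 j).ne_zero)
  · obtain ⟨j, rfl⟩ := mlt_dvd hq _ hp hpd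
    exact hw j
  · refine mlt_log hq _ ((M : ℝ) ^ 2) (fun j => ?_) Q hQ
    have h1 : (x j.succ).val + 1 ≤ M := ZMod.val_lt _
    have h2 : (x 0).val + 1 ≤ M := ZMod.val_lt _
    have h3 : (x j.succ).val + M * (x 0).val ≤ M ^ 2 := by
      nlinarith [Nat.zero_le (x 0).val]
    exact_mod_cast h3

end Pool.Agent.Lib.MP_9f2731_nt.GP.Asm
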